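import Pool.Agent.Helper85.SP.Base

/-!
# Functions of small Wiener norm and small mass are not correlated with dense sets of bounded
representation (module AVOID)
-/

set_option autoImplicit false

open Finset Filter

namespace Pool.Agent.Helper85.SP.AVOID

open Pool.Agent.Helper85.SP

theorem icc_le (A : Set ℕ) (N : ℕ) :
    ((A ∩ Set.Icc 1 N).ncard : ℝ) ≤ (seg A N).card + 1 := by
  classical
  have hsub : A ∩ Set.Icc 1 N ⊆ ((insert N (seg A N) : Finset ℕ) : Set ℕ) := by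
    intro x hx
    rcases hx with ⟨hxA, hx1, hxN⟩
    rw [Finset.coe_insert]
    rcases Nat.lt_or_ge x N with hlt | hge
    · right
      simp only [seg, Finset.coe_filter, Finset.mem_range, Set.mem_ofPred_eq]
      exact ⟨hlt, hxA⟩
    · left
      omega
  have h1 : (A ∩ Set.Icc 1 N).ncard ≤ ((insert N (seg A N) : Finset ℕ) : Set ℕ).ncard :=
    Set.ncard_le_ncard hsub (Finset.finite_toSet _)
  rw [Set.ncard_coe_finset] at h1
  have h2 : (insert N (seg A N)).card ≤ (seg A N).card + 1 := Finset.card_insert_le _ _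
  have h3 : (A ∩ Set.Icc 1 N).ncard ≤ (seg A N).card + 1 := h1.trans h2
  exact_mod_cast h3

theorem spec_nonneg {M : ℕ} [NeZero M] (F : ZMod M → ℂ) : 0 ≤ spec F :=
  Finset.sum_nonneg fun _ _ => norm_nonneg _

theorem mass_nonneg {M : ℕ} [NeZero M] (F : ZMod M → ℂ) : 0 ≤ mass F :=
  Finset.sum_nonneg fun _ _ => by positivity

theorem mem_seg {A : Set ℕ} {N s : ℕ} (hs : s ∈ seg A N) : s ∈ A ∧ s < N := by
  classical
  simp only [seg, Finset.mem_filter, Finset.mem_range] at hs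
  exact ⟨hs.2, hs.1⟩

/-- a real power with negative exponent is eventually below any positive constant -/
theorem eventually_small (e K : ℝ) (he : e < 0) (hK : 0 < K) :
    ∀ᶠ N : ℕ in atTop, (N : ℝ) ^ e ≤ K := by
  have h1 : Tendsto (fun x : ℝ => x ^ e) atTop (nhds 0) := by
    have := tendsto_rpow_neg_atTop (y := -e) (by linarith)
    simpa using this
  have h2 := (h1.comp (tendsto_natCast_atTop_atTop (R := ℝ))).eventually (gt_mem_nhds hK)
  filter_upwards [h2] with N hN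
  exact le_of_lt hN

/-- a real power with positive exponent is eventually above any constant -/
theorem eventually_large (e K : ℝ) (he : 0 < e) :
    ∀ᶠ N : ℕ in atTop, K ≤ (N : ℝ) ^ e :=
  ((tendsto_rpow_atTop he).comp (tendsto_natCast_atTop_atTop (R := ℝ))).eventually_ge_atTop K

theorem main (h : S_INQ) : S_AVOID := by
  intro β κ δ hβ hlt
  set η : ℝ := (δ - 2 * κ - 2 * β) / 8 with hη
  have hη0 : 0 < η := by rw [hη]; linarith
  refine ⟨η, hη0, ?_⟩
  intro A g hR hD hg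
  obtain ⟨R, hR⟩ := hR
  obtain ⟨C, hC, hD⟩ := hD
  have hb : 0 < 1 / 2 - β := by linarith
  have hK : (0 : ℝ) < 1 / (((R : ℝ) + 1) * (4 * C ^ 2)) := by positivity
  filter_upwards [hD, hg, eventually_large (1 / 2 - β) (2 * C) hb,
    eventually_small (2 * κ + 2 * β - δ + 4 * η) _ (by rw [hη]; linarith) hK,
    eventually_ge_atTop 1] with N hN hgN hbig hsmall hN1
  intro M _ F hM hspec hmass
  set a : ℝ := ((seg A N).card : ℝ) with ha
  set c : ℝ := ‖∑ a ∈ seg A N, F (a : ZMod M)‖ with hc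
  have hN0 : (0 : ℝ) < (N : ℝ) := by exact_mod_cast hN1
  have hc0 : 0 ≤ c := norm_nonneg _
  have ha0 : 0 ≤ a := Nat.cast_nonneg _
  -- lower bound for a
  have h1 : (N : ℝ) ^ (1 / 2 - β) ≤ Real.sqrt N / g N := by
    rw [Real.rpow_sub hN0, Real.sqrt_eq_rpow]
    exact div_le_div_of_nonneg_left (by positivity) hgN.1 hgN.2
  have h2 : (N : ℝ) ^ (1 / 2 - β) ≤ C * (a + 1) :=
    (h1.trans hN).trans (mul_le_mul_of_nonneg_left (icc_le A N) hC.le)
  have h3 : (N : ℝ) ^ (1 / 2 - β) ≤ 2 * C * a := by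
    nlinarith
  have h4 : (N : ℝ) ^ (1 - 2 * β) ≤ 4 * C ^ 2 * a ^ 2 := by
    have h5 : (N : ℝ) ^ (1 - 2 * β) = (N : ℝ) ^ (1 / 2 - β) * (N : ℝ) ^ (1 / 2 - β) := by
      rw [← Real.rpow_add hN0]; congr 1; ring
    rw [h5]
    have h6 : (0 : ℝ) ≤ (N : ℝ) ^ (1 / 2 - β) := by positivity
    calc (N : ℝ) ^ (1 / 2 - β) * (N : ℝ) ^ (1 / 2 - β)
        ≤ (2 * C * a) * (2 * C * a) := mul_le_mul h3 h3 h6 (h6.trans h3)
      _ = 4 * C ^ 2 * a ^ 2 := by ring
  -- the inequality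
  have h7 := h A R hR N M hM (seg A N) (fun s hs => mem_seg hs) F
  rw [← hc, ← ha] at h7
  have h8 : spec F ^ 2 ≤ (N : ℝ) ^ (2 * κ) := by
    have : (N : ℝ) ^ (2 * κ) = (N : ℝ) ^ κ * (N : ℝ) ^ κ := by
      rw [← Real.rpow_add hN0]; congr 1; ring
    rw [this, sq]
    exact mul_le_mul hspec hspec (spec_nonneg F) ((spec_nonneg F).trans hspec)
  have h9 : c ^ 4 ≤ ((R : ℝ) + 1) * a ^ 2 * (N : ℝ) ^ (2 * κ) * (N : ℝ) ^ (1 - δ) := by
    refine h7.trans ?_
    exact mul_le_mul (mul_le_mul (mul_le_mul_of_nonneg_right (by linarith) (sq_nonneg a)) h8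
      (sq_nonneg _) (by positivity)) hmass (mass_nonneg F) (by positivity)
  have h10 : ((N : ℝ) ^ η) ^ 4 = (N : ℝ) ^ (4 * η) := by
    rw [← Real.rpow_natCast, ← Real.rpow_mul hN0.le]; congr 1; push_cast; ring
  have h11 : ((N : ℝ) ^ η * c) ^ 4 ≤ a ^ 4 := by
    have e1 : (N : ℝ) ^ (4 * η) * (N : ℝ) ^ (2 * κ) * (N : ℝ) ^ (1 - δ) =
        (N : ℝ) ^ (2 * κ + 2 * β - δ + 4 * η) * (N : ℝ) ^ (1 - 2 * β) := by
      rw [← Real.rpow_add hN0, ← Real.rpow_add hN0, ← Real.rpow_add hN0]; congr 1; ring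
    calc ((N : ℝ) ^ η * c) ^ 4 = (N : ℝ) ^ (4 * η) * c ^ 4 := by rw [mul_pow, h10]
      _ ≤ (N : ℝ) ^ (4 * η) *
          (((R : ℝ) + 1) * a ^ 2 * (N : ℝ) ^ (2 * κ) * (N : ℝ) ^ (1 - δ)) := by gcongr
      _ = ((R : ℝ) + 1) * a ^ 2 *
          ((N : ℝ) ^ (4 * η) * (N : ℝ) ^ (2 * κ) * (N : ℝ) ^ (1 - δ)) := by ring
      _ = ((R : ℝ) + 1) * a ^ 2 *
          ((N : ℝ) ^ (2 * κ + 2 * β - δ + 4 * η) * (N : ℝ) ^ (1 - 2 * β)) := by rw [e1]
      _ ≤ ((R : ℝ) + 1) * a ^ 2 *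
          ((1 / (((R : ℝ) + 1) * (4 * C ^ 2))) * (4 * C ^ 2 * a ^ 2)) := by gcongr
      _ = a ^ 4 := by
          have : ((R : ℝ) + 1) ≠ 0 := by positivity
          have : C ≠ 0 := hC.ne'
          field_simp
  exact le_of_pow_le_pow_left₀ (by norm_num) ha0 h11

end Pool.Agent.Helper85.SP.AVOID
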