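import Mathlib

/-!
# Representation counts and functions of small Wiener norm: definitions
-/

set_option autoImplicit false

open Finset Filter

namespace Pool.Agent.Helper85.SP

/-- the number of ordered pairs `(a, b)` of elements of `A` with `a + b = n` -/
noncomputable def rep (A : Set ℕ) (n : ℕ) : ℕ :=
  {p : ℕ × ℕ | p.1 ∈ A ∧ p.2 ∈ A ∧ p.1 + p.2 = n}.ncard

/-- the Fourier coefficients of a function on `ℤ / M` -/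
noncomputable def hat {M : ℕ} [NeZero M] (F : ZMod M → ℂ) (k : ZMod M) : ℂ :=
  (M : ℂ)⁻¹ * ∑ x : ZMod M, F x * (ZMod.stdAddChar (-(k * x)) : ℂ)

/-- the Wiener norm: the sum of the absolute values of the Fourier coefficients -/
noncomputable def spec {M : ℕ} [NeZero M] (F : ZMod M → ℂ) : ℝ := ∑ k, ‖hat F k‖

/-- the sum of the squares of the absolute values -/
noncomputable def mass {M : ℕ} [NeZero M] (F : ZMod M → ℂ) : ℝ := ∑ x, ‖F x‖ ^ 2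

open Classical in
/-- the set `A ∩ [0, N)` -/
noncomputable def seg (A : Set ℕ) (N : ℕ) : Finset ℕ := (range N).filter (· ∈ A)

open Classical in
/-- the indicator function of `S` modulo `M` -/
noncomputable def ind (S : Finset ℕ) (M : ℕ) (x : ZMod M) : ℂ :=
  if ∃ a ∈ S, (a : ZMod M) = x then 1 else 0

/-- `|A ∩ [1, N]| ≫ √N / g(N)` -/
def Dense (g : ℕ → ℝ) (A : Set ℕ) : Prop :=
  ∃ C : ℝ, 0 < C ∧ ∀ᶠ N : ℕ in atTop, Real.sqrt N / g N ≤ C * ((A ∩ Set.Icc 1 N).ncard : ℝ)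

/-- `g` forces unbounded representations inside the class `𝒞` -/
def ForcesIn (𝒞 : Set ℕ → Prop) (g : ℕ → ℝ) : Prop :=
  ∀ A : Set ℕ, 𝒞 A → Dense g A → ∀ K : ℕ, ∃ n, K < rep A n

/-- the Wiener norm of `A ∩ [0, N)` has an exponent less than `κ` -/
def SpecExp (κ : ℝ) (A : Set ℕ) : Prop :=
  ∃ δ : ℝ, 0 < δ ∧ ∀ᶠ N : ℕ in atTop, ∃ (M : ℕ) (_ : NeZero M), 2 * N ≤ M ∧
    spec (ind (seg A N) M) ≤ (N : ℝ) ^ (κ - δ)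

/-- `A` has at most `φ(N) ^ C` elements below `N` -/
def Small (φ : ℕ → ℝ) (A : Set ℕ) : Prop :=
  ∃ C : ℕ, ∀ᶠ N : ℕ in atTop, ((seg A N).card : ℝ) ≤ φ N ^ C

/-- the Wiener norm of `A ∩ [0, N)` is at most `φ(N) ^ C` -/
def SpecScale (φ : ℕ → ℝ) (A : Set ℕ) : Prop :=
  ∃ C : ℕ, ∀ᶠ N : ℕ in atTop, ∃ (M : ℕ) (_ : NeZero M), 2 * N ≤ M ∧
    spec (ind (seg A N) M) ≤ φ N ^ C

/-- some function of Wiener norm at most `φ(N) ^ C` is correlated with `A ∩ [0, N)` -/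
def SpecHosted (φ : ℕ → ℝ) (A : Set ℕ) : Prop :=
  ∃ C : ℕ, ∀ᶠ N : ℕ in atTop, ∃ (M : ℕ) (_ : NeZero M) (F : ZMod M → ℂ), 2 * N ≤ M ∧
    spec F ≤ φ N ^ C ∧ mass F ≤ φ N ^ C * ‖∑ a ∈ seg A N, F (a : ZMod M)‖ ∧
    ((seg A N).card : ℝ) ≤ φ N ^ C * ‖∑ a ∈ seg A N, F (a : ZMod M)‖

/-- `A` is power-saving uncorrelated with all functions `F` on `ℤ / M`, `M ≥ 2 N`, of Wiener norm at
most `N ^ κ` and mass at most `N ^ (1 - δ)`, when `κ < δ / 2`. -/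
def Pseudo (A : Set ℕ) : Prop :=
  ∀ κ δ : ℝ, κ < δ / 2 → ∃ η : ℝ, 0 < η ∧ ∀ᶠ N : ℕ in atTop,
    ∀ (M : ℕ) [NeZero M] (F : ZMod M → ℂ), 2 * N ≤ M → spec F ≤ (N : ℝ) ^ κ →
      mass F ≤ (N : ℝ) ^ (1 - δ) →
        (N : ℝ) ^ η * ‖∑ a ∈ seg A N, F (a : ZMod M)‖ ≤ (seg A N).card

/-! ### the modules -/

def S_FOU : Prop := ∀ (M : ℕ) [NeZero M] (F : ZMod M → ℂ),
  (∀ x : ZMod M, F x = ∑ k : ZMod M, hat F k * (ZMod.stdAddChar (k * x) : ℂ)) ∧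
  (M : ℝ) * ∑ k : ZMod M, ‖hat F k‖ ^ 2 = mass F ∧
  ∑ k : ZMod M, ‖∑ x : ZMod M, F x * (ZMod.stdAddChar (k * x) : ℂ)‖ ^ 2 = M * mass F

def S_INQ : Prop := ∀ (A : Set ℕ) (R : ℕ), (∀ n, rep A n ≤ R) → ∀ (N M : ℕ) [NeZero M],
  2 * N ≤ M → ∀ (S : Finset ℕ), (∀ s ∈ S, s ∈ A ∧ s < N) → ∀ F : ZMod M → ℂ,
    ‖∑ s ∈ S, F (s : ZMod M)‖ ^ 4 ≤ R * (S.card : ℝ) ^ 2 * spec F ^ 2 * mass F

def S_CONV : Prop := ∀ (M : ℕ) [NeZero M] (u h : ZMod M → ℂ),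
  spec (fun x => ∑ y, u y * h (x - y)) ^ 2 ≤ mass u * mass h

/-- from `S_CONV` with `h = ` the indicator function of `0` -/
def S_IND : Prop := (∀ (M : ℕ) [NeZero M] (F : ZMod M → ℂ), spec F ^ 2 ≤ mass F) ∧
  ∀ (S : Finset ℕ) (M : ℕ) [NeZero M], (∀ s ∈ S, s < M) →
    mass (ind S M) = S.card ∧ ∑ s ∈ S, ind S M (s : ZMod M) = S.card

def S_SHARP : Prop := ∃ C : ℝ, ∀ x y : ℕ, 1 ≤ x → 1 ≤ y → ∃ S : Finset ℕ,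
  (∀ s ∈ S, s < 2 * x * y) ∧ (∀ n, rep (S : Set ℕ) n ≤ 4) ∧ (x * y : ℝ) ≤ C * (S.card : ℝ) ^ 2 ∧
  ∀ (M : ℕ) [NeZero M], 4 * x * y ≤ M → ∃ F : ZMod M → ℂ,
    (∀ z, ∃ r : ℝ, F z = r ∧ 0 ≤ r ∧ r ≤ 1) ∧ (∀ s ∈ S, 1 / 2 ≤ (F (s : ZMod M)).re) ∧
    spec F ^ 4 ≤ 4 * x ∧ mass F ^ 2 ≤ 16 * x * y ^ 2

def S_THIN : Prop := ∀ b b' : ℝ, 0 < b → b < b' → b < 1 / 2 → ∃ A : Set ℕ,
  (∃ R : ℕ, ∀ n, rep A n ≤ R) ∧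
  (∀ᶠ N : ℕ in atTop, (N : ℝ) ^ b ≤ ((A ∩ Set.Icc 1 N).ncard : ℝ)) ∧
  ∀ᶠ N : ℕ in atTop, ((seg A N).card : ℝ) ≤ (N : ℝ) ^ b'

def S_AVOID : Prop := ∀ β κ δ : ℝ, β < 1 / 2 → β + κ < δ / 2 → ∃ η : ℝ, 0 < η ∧ ∀ (A : Set ℕ) (g : ℕ → ℝ),
  (∃ R : ℕ, ∀ n, rep A n ≤ R) → Dense g A →
  (∀ᶠ N : ℕ in atTop, 0 < g N ∧ g N ≤ (N : ℝ) ^ β) → ∀ᶠ N : ℕ in atTop,
    ∀ (M : ℕ) [NeZero M] (F : ZMod M → ℂ), 2 * N ≤ M → spec F ≤ (N : ℝ) ^ κ →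
      mass F ≤ (N : ℝ) ^ (1 - δ) →
        (N : ℝ) ^ η * ‖∑ a ∈ seg A N, F (a : ZMod M)‖ ≤ (seg A N).card

def S_EXP : Prop := ∀ β κ : ℝ, 0 < β → β < 1 / 2 →
  (ForcesIn (SpecExp κ) (fun N => (N : ℝ) ^ β) ↔ β + 2 * κ ≤ 1 / 2)

def S_SCALE : Prop := ∀ φ : ℕ → ℝ, Monotone φ → (∀ᶠ N : ℕ in atTop, Real.log N ≤ φ N) →
  (∃ c : ℕ, ∀ᶠ N : ℕ in atTop, φ (N ^ 2) ≤ φ N ^ c) →
  (∀ ε : ℝ, 0 < ε → ∀ᶠ N : ℕ in atTop, φ N ≤ (N : ℝ) ^ ε) →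
  (∀ A, Small φ A → SpecScale φ A) ∧ (∀ A, SpecScale φ A → SpecHosted φ A) ∧
  ∀ 𝒞 : Set ℕ → Prop, (∀ A, Small φ A → 𝒞 A) → (∀ A, 𝒞 A → SpecHosted φ A) → ∀ g : ℕ → ℝ,
    (ForcesIn 𝒞 g ↔ ∀ C : ℕ, ∃ᶠ N : ℕ in atTop, φ N ^ C < Real.sqrt N / g N)

def S_RED : Prop :=
  (∀ g : ℕ → ℝ, (∀ᶠ N : ℕ in atTop, 0 < g N) →
    (∀ ε : ℝ, 0 < ε → ∀ᶠ N : ℕ in atTop, g N ≤ (N : ℝ) ^ ε) →
    (ForcesIn (fun _ => True) g ↔ ForcesIn Pseudo g)) ∧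
  ((∃ g : ℕ → ℝ, Tendsto g atTop atTop ∧ ForcesIn (fun _ => True) g) ↔
    ∃ g : ℕ → ℝ, Tendsto g atTop atTop ∧ ForcesIn Pseudo g)

end Pool.Agent.Helper85.SP
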