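import Pool.Agent.Helper85.SP.Base

/-!
# The Wiener norm of a convolution (helper71)
-/

set_option autoImplicit false

open Finset Filter

namespace Pool.Agent.Helper85.SP.CONV

theorem hat_conv {M : ℕ} [NeZero M] (u h : ZMod M → ℂ) (k : ZMod M) :
    hat (fun x => ∑ y, u y * h (x - y)) k = M * (hat u k * hat h k) := by
  have hM : (M : ℂ) ≠ 0 := Nat.cast_ne_zero.2 (NeZero.ne M)
  have h1 : ∑ x : ZMod M, (∑ y, u y * h (x - y)) * (ZMod.stdAddChar (-(k * x)) : ℂ) =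
      (∑ y : ZMod M, u y * (ZMod.stdAddChar (-(k * y)) : ℂ)) *
        ∑ x : ZMod M, h x * (ZMod.stdAddChar (-(k * x)) : ℂ) := by
    simp only [Finset.sum_mul]
    rw [Finset.sum_comm]
    apply Finset.sum_congr rfl
    intro y _
    rw [Finset.mul_sum, ← Equiv.sum_comp (Equiv.subRight y)
      (fun x => u y * (ZMod.stdAddChar (-(k * y)) : ℂ) * (h x * (ZMod.stdAddChar (-(k * x)) : ℂ)))]
    apply Finset.sum_congr rfl
    intro x _
    rw [Equiv.subRight_apply]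
    have e : -(k * x) = -(k * y) + -(k * (x - y)) := by ring
    rw [e, AddChar.map_add_eq_mul]
    ring
  unfold hat
  rw [h1]
  field_simp

theorem main (hF : S_FOU) : S_CONV := by
  intro M _ u h
  have hM : (0 : ℝ) < M := Nat.cast_pos.2 (NeZero.pos M)
  have h1 : spec (fun x => ∑ y, u y * h (x - y)) = M * ∑ k, ‖hat u k‖ * ‖hat h k‖ := by
    unfold spec
    rw [Finset.mul_sum]
    apply Finset.sum_congr rfl
    intro k _
    rw [hat_conv, norm_mul, norm_mul, Complex.norm_natCast]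
  rw [h1, mul_pow]
  have h2 : (∑ k, ‖hat u k‖ * ‖hat h k‖) ^ 2 ≤ (∑ k, ‖hat u k‖ ^ 2) * ∑ k, ‖hat h k‖ ^ 2 :=
    Finset.sum_mul_sq_le_sq_mul_sq _ _ _
  have h3 := (hF M u).2.1
  have h4 := (hF M h).2.1
  rw [← h3, ← h4]
  calc (M : ℝ) ^ 2 * (∑ k, ‖hat u k‖ * ‖hat h k‖) ^ 2 ≤
      (M : ℝ) ^ 2 * ((∑ k, ‖hat u k‖ ^ 2) * ∑ k, ‖hat h k‖ ^ 2) :=
        mul_le_mul_of_nonneg_left h2 (by positivity)
    _ = _ := by ring

end Pool.Agent.Helper85.SP.CONV
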