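import Pool.Agent.Helper85.SP.AVOID

/-!
# The exact threshold for sets whose indicator functions have a Wiener norm of a given exponent
(module EXP)
-/

set_option autoImplicit false

open Finset Filter

namespace Pool.Agent.Helper85.SP.EXP

open Pool.Agent.Helper85.SP
open Pool.Agent.Helper85.SP.AVOID

theorem main (h : S_INQ) (h2 : S_IND) (h3 : S_THIN) : S_EXP := by
  intro β κ hβ0 hβ
  constructor
  · -- thresholds: necessity
    intro hF
    by_contra hcon
    push Not at hcon
    have hb : 0 < 1 / 2 - β := by linarith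
    set b' : ℝ := ((1 / 2 - β) + 2 * κ) / 2 with hb'
    have h1 : 1 / 2 - β < b' := by rw [hb']; linarith
    have h1' : b' < 2 * κ := by rw [hb']; linarith
    obtain ⟨A, ⟨R, hR⟩, hlow, hup⟩ := h3 (1 / 2 - β) b' hb h1 (by linarith)
    have hspec : SpecExp κ A := by
      refine ⟨κ - b' / 2, by linarith, ?_⟩
      filter_upwards [hup, eventually_ge_atTop 1] with N hN hN1
      refine ⟨2 * N + 1, ⟨by omega⟩, by omega, ?_⟩
      have hN0 : (0 : ℝ) < (N : ℝ) := by exact_mod_cast hN1
      have e1 := h2.1 (2 * N + 1) (ind (seg A N) (2 * N + 1))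
      have e2 := (h2.2 (seg A N) (2 * N + 1) (fun s hs => by
        have := (mem_seg hs).2
        omega)).1
      rw [e2] at e1
      have e3 : spec (ind (seg A N) (2 * N + 1)) ^ 2 ≤ ((N : ℝ) ^ (b' / 2)) ^ 2 := by
        refine (e1.trans hN).trans (le_of_eq ?_)
        rw [← Real.rpow_natCast, ← Real.rpow_mul hN0.le]; congr 1; push_cast; ring
      have e4 := le_of_pow_le_pow_left₀ (by norm_num) (by positivity) e3
      have e5 : κ - (κ - b' / 2) = b' / 2 := by ring
      rw [e5]
      exact e4
    have hdense : Dense (fun N => (N : ℝ) ^ β) A := by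
      refine ⟨1, one_pos, ?_⟩
      filter_upwards [hlow, eventually_ge_atTop 1] with N hN hN1
      have hN0 : (0 : ℝ) < (N : ℝ) := by exact_mod_cast hN1
      have e1 : Real.sqrt N / (N : ℝ) ^ β = (N : ℝ) ^ (1 / 2 - β) := by
        rw [Real.rpow_sub hN0, Real.sqrt_eq_rpow]
      simp only [e1, one_mul]
      exact hN
    obtain ⟨n, hn⟩ := hF A hspec hdense R
    exact absurd (hR n) (by omega)
  · -- sufficiency
    intro hle A hspec hD K
    by_contra hcon
    push Not at hcon
    obtain ⟨δ, hδ, hs⟩ := hspec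
    obtain ⟨C, hC, hD⟩ := hD
    have hb : 0 < 1 / 2 - β := by linarith
    -- constants
    have hev : ∀ᶠ N : ℕ in atTop, False := by
      have hK : (0 : ℝ) < 1 / (4 * C * ((K : ℝ) + 1)) := by positivity
      filter_upwards [hs, hD, eventually_large (1 / 2 - β) (4 * C) hb,
        eventually_small (-(2 * δ)) _ (by linarith) hK,
        eventually_ge_atTop 1] with N hN hDN hbig hsmall hN1
      obtain ⟨M, _, hM, hsp⟩ := hN
      have hN0 : (0 : ℝ) < (N : ℝ) := by exact_mod_cast hN1
      have hN1' : (1 : ℝ) ≤ (N : ℝ) := by exact_mod_cast hN1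
      set a : ℝ := ((seg A N).card : ℝ) with ha
      have ha0 : 0 ≤ a := Nat.cast_nonneg _
      have e0 := h2.2 (seg A N) M (fun s hs => by
        have := (mem_seg hs).2
        omega)
      have e1 := h A K hcon N M hM (seg A N) (fun s hs => mem_seg hs) (ind (seg A N) M)
      rw [e0.1, e0.2, ← ha] at e1
      have e2 : ‖(((seg A N).card : ℕ) : ℂ)‖ = a := by
        rw [Complex.norm_natCast]
      rw [e2] at e1
      -- density
      have h1 : (N : ℝ) ^ (1 / 2 - β) ≤ C * (a + 1) := by
        have h2' : Real.sqrt N / (N : ℝ) ^ β = (N : ℝ) ^ (1 / 2 - β) := by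
          rw [Real.rpow_sub hN0, Real.sqrt_eq_rpow]
        rw [← h2']
        exact hDN.trans (mul_le_mul_of_nonneg_left (icc_le A N) hC.le)
      have h5 : (N : ℝ) ^ (1 / 2 - β) ≤ 2 * C * a := by nlinarith
      have hapos : 0 < a := by
        have : (0 : ℝ) < (N : ℝ) ^ (1 / 2 - β) := by positivity
        by_contra hh
        push Not at hh
        have : a = 0 := le_antisymm hh ha0
        rw [this] at h5
        linarith
      have h6 : a ≤ ((K : ℝ) + 1) * spec (ind (seg A N) M) ^ 2 := by
        have e3 : a ^ 3 * a ≤ a ^ 3 * ((K : ℝ) * spec (ind (seg A N) M) ^ 2) := by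
          calc a ^ 3 * a = a ^ 4 := by ring
            _ ≤ _ := e1
            _ = _ := by ring
        have e4 := le_of_mul_le_mul_left e3 (by positivity)
        refine e4.trans ?_
        exact mul_le_mul_of_nonneg_right (by linarith) (sq_nonneg _)
      have h7 : spec (ind (seg A N) M) ^ 2 ≤ (N : ℝ) ^ (2 * κ - 2 * δ) := by
        have : (N : ℝ) ^ (2 * κ - 2 * δ) = (N : ℝ) ^ (κ - δ) * (N : ℝ) ^ (κ - δ) := by
          rw [← Real.rpow_add hN0]; congr 1; ring
        rw [this, sq]
        exact mul_le_mul hsp hsp (spec_nonneg _) ((spec_nonneg _).trans hsp)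
      have h8 : (N : ℝ) ^ (2 * κ - 2 * δ) ≤ (N : ℝ) ^ (1 / 2 - β) * (N : ℝ) ^ (-(2 * δ)) := by
        rw [← Real.rpow_add hN0]
        exact Real.rpow_le_rpow_of_exponent_le hN1' (by linarith)
      have hp : (0 : ℝ) < (N : ℝ) ^ (1 / 2 - β) := by positivity
      have h9 : (N : ℝ) ^ (1 / 2 - β) ≤
          2 * C * (((K : ℝ) + 1) * ((N : ℝ) ^ (1 / 2 - β) * (1 / (4 * C * ((K : ℝ) + 1))))) := by
        refine h5.trans ?_
        refine mul_le_mul_of_nonneg_left ?_ (by positivity)
        refine h6.trans ?_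
        refine mul_le_mul_of_nonneg_left ?_ (by positivity)
        refine (h7.trans h8).trans ?_
        exact mul_le_mul_of_nonneg_left hsmall hp.le
      have h10 : 2 * C * (((K : ℝ) + 1) *
          ((N : ℝ) ^ (1 / 2 - β) * (1 / (4 * C * ((K : ℝ) + 1))))) =
          (N : ℝ) ^ (1 / 2 - β) / 2 := by
        have : ((K : ℝ) + 1) ≠ 0 := by positivity
        have : C ≠ 0 := hC.ne'
        field_simp
        norm_num
      rw [h10] at h9
      linarith
    exact (hev.and (eventually_ge_atTop 0)).exists.elim fun _ hx => hx.1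

end Pool.Agent.Helper85.SP.EXP
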