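import Pool.Agent.Helper85.SP.Base

set_option autoImplicit false

open Finset Filter

namespace Pool.Agent.Helper85.SP.FIN

open Pool.Agent.Helper85.SP

/-- the Wiener norm of `A ∩ [0, N)` is comparable to the square root of the number of elements -/
theorem comparable (h : S_INQ) (h2 : S_IND) (A : Set ℕ) (R : ℕ) (hr : ∀ n, rep A n ≤ R)
    (N M : ℕ) [NeZero M] (hM : 2 * N ≤ M) :
    ((seg A N).card : ℝ) ≤ R * spec (ind (seg A N) M) ^ 2 ∧
      spec (ind (seg A N) M) ^ 2 ≤ (seg A N).card := by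
  classical
  have hs : ∀ s ∈ seg A N, s ∈ A ∧ s < N := by
    intro s hs
    unfold seg at hs
    rw [mem_filter, mem_range] at hs
    exact ⟨hs.2, hs.1⟩
  obtain ⟨h3, h4⟩ := h2.2 (seg A N) M (fun s h => by have := (hs s h).2; omega)
  have h5 := h2.1 M (ind (seg A N) M)
  rw [h3] at h5
  refine ⟨?_, h5⟩
  have h6 := h A R hr N M hM (seg A N) hs (ind (seg A N) M)
  rw [h3, h4] at h6
  obtain ⟨a, ha⟩ : ∃ a : ℝ, a = ((seg A N).card : ℝ) := ⟨_, rfl⟩
  have ha0 : 0 ≤ a := by rw [ha]; exact Nat.cast_nonneg _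
  have h7 : ‖(((seg A N).card : ℕ) : ℂ)‖ = a := by
    rw [Complex.norm_natCast, ha]
  rw [h7, ← ha] at h6
  rw [← ha]
  rcases ha0.eq_or_lt with h8 | h8
  · rw [← h8]
    positivity
  · have h9 : a ^ 3 * a ≤ a ^ 3 * (R * spec (ind (seg A N) M) ^ 2) := by nlinarith
    exact le_of_mul_le_mul_left h9 (by positivity)

end Pool.Agent.Helper85.SP.FIN
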