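import Pool.Agent.Helper85.SP.Base

/-!
# Fourier inversion and Parseval on `ZMod M` (helper71)
-/

set_option autoImplicit false

open Finset Filter

namespace Pool.Agent.Helper85.SP.FOU

variable {M : ℕ} [NeZero M]

/-- Orthogonality. -/
theorem orth (y : ZMod M) :
    ∑ k : ZMod M, (ZMod.stdAddChar (k * y) : ℂ) = if y = 0 then (M : ℂ) else 0 := by
  have h := AddChar.sum_mulShift y (ZMod.isPrimitive_stdAddChar M)
  rw [h, ZMod.card]
  split_ifs <;> simp

theorem conj_char (z : ZMod M) :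
    (starRingEnd ℂ) (ZMod.stdAddChar z : ℂ) = ZMod.stdAddChar (-z) :=
  (AddChar.map_neg_eq_conj _ _).symm

/-- Parseval for the sums. -/
theorem parseval (F : ZMod M → ℂ) :
    ∑ k : ZMod M, ‖∑ x : ZMod M, F x * (ZMod.stdAddChar (k * x) : ℂ)‖ ^ 2 = M * mass F := by
  have h1 : ((∑ k : ZMod M, ‖∑ x : ZMod M, F x * (ZMod.stdAddChar (k * x) : ℂ)‖ ^ 2 : ℝ) : ℂ) =
      ((M * mass F : ℝ) : ℂ) := by
    unfold mass
    push_cast
    have h2 : ∀ k : ZMod M, ((‖∑ x : ZMod M, F x * (ZMod.stdAddChar (k * x) : ℂ)‖ : ℝ) : ℂ) ^ 2 =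
        ∑ x : ZMod M, ∑ y : ZMod M, F x * (starRingEnd ℂ) (F y) *
          (ZMod.stdAddChar (k * (x - y)) : ℂ) := by
      intro k
      rw [← Complex.mul_conj', map_sum, Finset.sum_mul_sum]
      apply Finset.sum_congr rfl
      intro x _
      apply Finset.sum_congr rfl
      intro y _
      rw [map_mul (starRingEnd ℂ), conj_char, mul_sub, sub_eq_add_neg, AddChar.map_add_eq_mul]
      ring
    rw [Finset.sum_congr rfl fun k _ => h2 k, Finset.sum_comm]
    rw [Finset.mul_sum]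
    apply Finset.sum_congr rfl
    intro x _
    rw [Finset.sum_comm]
    have h3 : ∀ y : ZMod M, ∑ k : ZMod M, F x * (starRingEnd ℂ) (F y) *
        (ZMod.stdAddChar (k * (x - y)) : ℂ) =
        if y = x then (M : ℂ) * (F x * (starRingEnd ℂ) (F x)) else 0 := by
      intro y
      rw [← Finset.mul_sum, orth]
      by_cases h : y = x
      · rw [if_pos h, h, sub_self, if_pos rfl]
        ring
      · rw [if_neg h, if_neg (fun h0 => h (sub_eq_zero.1 h0).symm), mul_zero]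
    rw [Finset.sum_congr rfl fun y _ => h3 y, Finset.sum_ite_eq' Finset.univ x,
      if_pos (Finset.mem_univ x), Complex.mul_conj']
  exact_mod_cast h1

theorem hat_eq (F : ZMod M → ℂ) (k : ZMod M) :
    hat F k = (M : ℂ)⁻¹ * ∑ x : ZMod M, F x * (ZMod.stdAddChar ((-k) * x) : ℂ) := by
  unfold hat
  congr 1
  apply Finset.sum_congr rfl
  intro x _
  rw [neg_mul]

theorem main : S_FOU := by
  intro M _ F
  have hM : (M : ℝ) ≠ 0 := Nat.cast_ne_zero.2 (NeZero.ne M)
  have hM' : (M : ℂ) ≠ 0 := Nat.cast_ne_zero.2 (NeZero.ne M)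
  refine ⟨fun x => ?_, ?_, parseval F⟩
  · have h1 : ∀ k : ZMod M, hat F k * (ZMod.stdAddChar (k * x) : ℂ) =
        ∑ y : ZMod M, (M : ℂ)⁻¹ * F y * (ZMod.stdAddChar (k * (x - y)) : ℂ) := by
      intro k
      unfold hat
      rw [mul_assoc, Finset.sum_mul, Finset.mul_sum]
      apply Finset.sum_congr rfl
      intro y _
      rw [mul_sub, sub_eq_add_neg, AddChar.map_add_eq_mul]
      ring
    rw [Finset.sum_congr rfl fun k _ => h1 k, Finset.sum_comm]
    have h3 : ∀ y : ZMod M, ∑ k : ZMod M, (M : ℂ)⁻¹ * F y *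
        (ZMod.stdAddChar (k * (x - y)) : ℂ) = if y = x then F x else 0 := by
      intro y
      rw [← Finset.mul_sum, orth]
      by_cases h : y = x
      · rw [if_pos h, h, sub_self, if_pos rfl]
        field_simp
      · rw [if_neg h, if_neg (fun h0 => h (sub_eq_zero.1 h0).symm), mul_zero]
    rw [Finset.sum_congr rfl fun y _ => h3 y, Finset.sum_ite_eq' Finset.univ x,
      if_pos (Finset.mem_univ x)]
  · have h1 : ∀ k : ZMod M, ‖hat F k‖ ^ 2 = ((M : ℝ)⁻¹) ^ 2 *
        ‖∑ x : ZMod M, F x * (ZMod.stdAddChar ((-k) * x) : ℂ)‖ ^ 2 := by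
      intro k
      rw [hat_eq, norm_mul, mul_pow, norm_inv, Complex.norm_natCast]
    rw [Finset.sum_congr rfl fun k _ => h1 k, ← Finset.mul_sum]
    have h2 : ∑ k : ZMod M, ‖∑ x : ZMod M, F x * (ZMod.stdAddChar ((-k) * x) : ℂ)‖ ^ 2 =
        ∑ k : ZMod M, ‖∑ x : ZMod M, F x * (ZMod.stdAddChar (k * x) : ℂ)‖ ^ 2 :=
      Equiv.sum_comp (Equiv.neg (ZMod M))
        (fun k => ‖∑ x : ZMod M, F x * (ZMod.stdAddChar (k * x) : ℂ)‖ ^ 2)
    rw [h2, parseval]
    field_simp

end Pool.Agent.Helper85.SP.FOU
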