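import Pool.Agent.Helper85.SP.Base

set_option autoImplicit false

open Finset Filter

namespace Pool.Agent.Helper85.SP.IND

open Pool.Agent.Helper85.SP

theorem main (h : S_CONV) : S_IND := by
  classical
  refine ⟨?_, ?_⟩
  · intro M _ F
    have h1 := h M F (fun x => if x = 0 then 1 else 0)
    have h2 : (fun x : ZMod M => ∑ y, F y * (if x - y = 0 then (1 : ℂ) else 0)) = F := by
      funext x
      simp only [sub_eq_zero, mul_ite, mul_one, mul_zero]
      rw [Finset.sum_ite_eq]
      simp
    have h3 : mass (fun x : ZMod M => if x = 0 then (1 : ℂ) else 0) = 1 := by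
      unfold mass
      rw [Finset.sum_eq_single (0 : ZMod M)]
      · simp
      · intro b _ hb
        simp [hb]
      · intro hb
        exact absurd (mem_univ _) hb
    rw [h2, h3, mul_one] at h1
    exact h1
  · intro S M _ hS
    have hinj : Set.InjOn (fun a : ℕ => (a : ZMod M)) (S : Set ℕ) := by
      intro a ha b hb hab
      have h1 := (ZMod.natCast_eq_natCast_iff' a b M).1 hab
      rwa [Nat.mod_eq_of_lt (hS a ha), Nat.mod_eq_of_lt (hS b hb)] at h1
    constructor
    · unfold mass ind
      have h1 : ∀ x : ZMod M, ‖(if ∃ a ∈ S, (a : ZMod M) = x then (1 : ℂ) else 0)‖ ^ 2 =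
          if x ∈ S.image (fun a : ℕ => (a : ZMod M)) then (1 : ℝ) else 0 := by
        intro x
        simp only [mem_image]
        split_ifs <;> simp
      simp only [h1]
      rw [Finset.sum_ite_mem, univ_inter, sum_const, nsmul_eq_mul, mul_one,
        Finset.card_image_of_injOn hinj]
    · have h1 : ∀ s ∈ S, ind S M (s : ZMod M) = 1 := by
        intro s hs
        unfold ind
        rw [if_pos ⟨s, hs, rfl⟩]
      rw [Finset.sum_congr rfl h1]
      simp

end Pool.Agent.Helper85.SP.IND
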