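import Pool.Agent.Helper85.SP.Base

/-!
# The fourth power inequality (helper71)
-/

set_option autoImplicit false

open Finset Filter

namespace Pool.Agent.Helper85.SP.INQ

theorem rep_fin (A : Set ℕ) (n : ℕ) :
    {p : ℕ × ℕ | p.1 ∈ A ∧ p.2 ∈ A ∧ p.1 + p.2 = n}.Finite := by
  apply (Finset.range (n + 1) ×ˢ Finset.range (n + 1)).finite_toSet.subset
  rintro p ⟨-, -, h⟩
  rw [Finset.mem_coe, Finset.mem_product, Finset.mem_range, Finset.mem_range]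
  omega

/-- the number of representations modulo `M` -/
def rr (S : Finset ℕ) (M : ℕ) (x : ZMod M) : ℕ :=
  ((S ×ˢ S).filter fun p => ((p.1 + p.2 : ℕ) : ZMod M) = x).card

theorem rr_le {A : Set ℕ} {R N M : ℕ} [NeZero M] (hR : ∀ n, rep A n ≤ R) (hM : 2 * N ≤ M)
    {S : Finset ℕ} (hS : ∀ s ∈ S, s ∈ A ∧ s < N) (x : ZMod M) : rr S M x ≤ R := by
  refine le_trans ?_ (hR x.val)
  unfold rr rep
  rw [← Set.ncard_coe_finset]
  apply Set.ncard_le_ncard _ (rep_fin A x.val)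
  intro p hp
  rw [Finset.mem_coe, Finset.mem_filter, Finset.mem_product] at hp
  obtain ⟨⟨h1, h2⟩, h3⟩ := hp
  refine ⟨(hS _ h1).1, (hS _ h2).1, ?_⟩
  rw [← h3, ZMod.val_natCast, Nat.mod_eq_of_lt]
  have := (hS _ h1).2
  have := (hS _ h2).2
  omega

theorem rr_sum {M : ℕ} [NeZero M] (S : Finset ℕ) : ∑ x : ZMod M, rr S M x = S.card ^ 2 := by
  unfold rr
  rw [Finset.sum_card_fiberwise_eq_card_filter]
  simp [Finset.card_product, sq]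

theorem sq_eq {M : ℕ} [NeZero M] (S : Finset ℕ) (k : ZMod M) :
    (∑ s ∈ S, (ZMod.stdAddChar (k * (s : ZMod M)) : ℂ)) ^ 2 =
      ∑ x : ZMod M, (rr S M x : ℂ) * (ZMod.stdAddChar (k * x) : ℂ) := by
  have h1 : (∑ s ∈ S, (ZMod.stdAddChar (k * (s : ZMod M)) : ℂ)) ^ 2 =
      ∑ p ∈ S ×ˢ S, (ZMod.stdAddChar (k * ((p.1 + p.2 : ℕ) : ZMod M)) : ℂ) := by
    rw [sq, Finset.sum_mul_sum, ← Finset.sum_product']
    apply Finset.sum_congr rfl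
    intro p _
    rw [Nat.cast_add, mul_add, AddChar.map_add_eq_mul]
  rw [h1, ← Finset.sum_fiberwise (S ×ˢ S) (fun p => ((p.1 + p.2 : ℕ) : ZMod M))]
  apply Finset.sum_congr rfl
  intro x _
  have h2 : ∀ p ∈ (S ×ˢ S).filter (fun p => ((p.1 + p.2 : ℕ) : ZMod M) = x),
      (ZMod.stdAddChar (k * ((p.1 + p.2 : ℕ) : ZMod M)) : ℂ) = ZMod.stdAddChar (k * x) := by
    intro p hp
    rw [(Finset.mem_filter.1 hp).2]
  rw [Finset.sum_congr rfl h2, Finset.sum_const, nsmul_eq_mul]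
  rfl

theorem main (hF : S_FOU) : S_INQ := by
  intro A R hR N M _ hM S hS F
  have hM0 : (0 : ℝ) < M := Nat.cast_pos.2 (NeZero.pos M)
  set T : ZMod M → ℂ := fun k => ∑ s ∈ S, (ZMod.stdAddChar (k * (s : ZMod M)) : ℂ) with hT
  -- the fourth moment of `T`
  have h4 : ∑ k, ‖T k‖ ^ 4 ≤ M * (R * (S.card : ℝ) ^ 2) := by
    have h1 : ∀ k, ‖T k‖ ^ 4 =
        ‖∑ x : ZMod M, (rr S M x : ℂ) * (ZMod.stdAddChar (k * x) : ℂ)‖ ^ 2 := by
      intro k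
      rw [← sq_eq, norm_pow, ← pow_mul]
    rw [Finset.sum_congr rfl fun k _ => h1 k, (hF M (fun x => (rr S M x : ℂ))).2.2]
    apply mul_le_mul_of_nonneg_left _ hM0.le
    unfold mass
    have h2 : ∀ x : ZMod M, ‖(rr S M x : ℂ)‖ ^ 2 ≤ R * (rr S M x : ℝ) := by
      intro x
      rw [Complex.norm_natCast, sq]
      have : (rr S M x : ℝ) ≤ R := by exact_mod_cast rr_le hR hM hS x
      exact mul_le_mul_of_nonneg_right this (Nat.cast_nonneg _)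
    refine (Finset.sum_le_sum fun x _ => h2 x).trans ?_
    rw [← Finset.mul_sum]
    apply le_of_eq
    congr 1
    exact_mod_cast rr_sum (M := M) S
  -- inversion
  have h5 : ∑ s ∈ S, F (s : ZMod M) = ∑ k, hat F k * T k := by
    have h6 : ∀ s ∈ S, F (s : ZMod M) =
        ∑ k : ZMod M, hat F k * (ZMod.stdAddChar (k * (s : ZMod M)) : ℂ) :=
      fun s _ => (hF M F).1 s
    rw [Finset.sum_congr rfl h6, Finset.sum_comm]
    apply Finset.sum_congr rfl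
    intro k _
    rw [hT, Finset.mul_sum]
  have h7 : ‖∑ s ∈ S, F (s : ZMod M)‖ ≤ ∑ k, ‖hat F k‖ * ‖T k‖ := by
    rw [h5]
    refine (norm_sum_le _ _).trans (le_of_eq ?_)
    apply Finset.sum_congr rfl
    intro k _
    rw [norm_mul]
  have h8 : (∑ k, ‖hat F k‖ * ‖T k‖) ^ 2 ≤ spec F * ∑ k, ‖hat F k‖ * ‖T k‖ ^ 2 := by
    have h9 := Finset.sum_mul_sq_le_sq_mul_sq Finset.univ (fun k => Real.sqrt ‖hat F k‖)
      (fun k => Real.sqrt ‖hat F k‖ * ‖T k‖)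
    have e1 : ∑ k, Real.sqrt ‖hat F k‖ * (Real.sqrt ‖hat F k‖ * ‖T k‖) =
        ∑ k, ‖hat F k‖ * ‖T k‖ := by
      apply Finset.sum_congr rfl
      intro k _
      rw [← mul_assoc, Real.mul_self_sqrt (norm_nonneg _)]
    have e2 : ∑ k, Real.sqrt ‖hat F k‖ ^ 2 = spec F := by
      unfold spec
      apply Finset.sum_congr rfl
      intro k _
      rw [Real.sq_sqrt (norm_nonneg _)]
    have e3 : ∑ k, (Real.sqrt ‖hat F k‖ * ‖T k‖) ^ 2 = ∑ k, ‖hat F k‖ * ‖T k‖ ^ 2 := by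
      apply Finset.sum_congr rfl
      intro k _
      rw [mul_pow, Real.sq_sqrt (norm_nonneg _)]
    rw [e1, e2, e3] at h9
    exact h9
  have h10 : (∑ k, ‖hat F k‖ * ‖T k‖ ^ 2) ^ 2 ≤ (∑ k, ‖hat F k‖ ^ 2) * ∑ k, ‖T k‖ ^ 4 := by
    have h9 := Finset.sum_mul_sq_le_sq_mul_sq Finset.univ (fun k => ‖hat F k‖)
      (fun k => ‖T k‖ ^ 2)
    have e3 : ∑ k, (‖T k‖ ^ 2) ^ 2 = ∑ k, ‖T k‖ ^ 4 := by
      apply Finset.sum_congr rfl
      intro k _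
      rw [← pow_mul]
    rw [e3] at h9
    exact h9
  have hmass := (hF M F).2.1
  have hs0 : 0 ≤ spec F := Finset.sum_nonneg fun k _ => norm_nonneg _
  have hq0 : 0 ≤ ∑ k, ‖hat F k‖ ^ 2 := Finset.sum_nonneg fun k _ => by positivity
  have hQ0 : 0 ≤ ∑ k, ‖hat F k‖ * ‖T k‖ ^ 2 := Finset.sum_nonneg fun k _ => by positivity
  calc ‖∑ s ∈ S, F (s : ZMod M)‖ ^ 4 ≤ (∑ k, ‖hat F k‖ * ‖T k‖) ^ 4 :=
        pow_le_pow_left₀ (norm_nonneg _) h7 4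
    _ = ((∑ k, ‖hat F k‖ * ‖T k‖) ^ 2) ^ 2 := by ring
    _ ≤ (spec F * ∑ k, ‖hat F k‖ * ‖T k‖ ^ 2) ^ 2 := pow_le_pow_left₀ (sq_nonneg _) h8 2
    _ = spec F ^ 2 * (∑ k, ‖hat F k‖ * ‖T k‖ ^ 2) ^ 2 := by ring
    _ ≤ spec F ^ 2 * ((∑ k, ‖hat F k‖ ^ 2) * ∑ k, ‖T k‖ ^ 4) :=
        mul_le_mul_of_nonneg_left h10 (sq_nonneg _)
    _ ≤ spec F ^ 2 * ((∑ k, ‖hat F k‖ ^ 2) * (M * (R * (S.card : ℝ) ^ 2))) :=
        mul_le_mul_of_nonneg_left (mul_le_mul_of_nonneg_left h4 hq0) (sq_nonneg _)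
    _ = R * (S.card : ℝ) ^ 2 * spec F ^ 2 * (M * ∑ k, ‖hat F k‖ ^ 2) := by ring
    _ = R * (S.card : ℝ) ^ 2 * spec F ^ 2 * mass F := by rw [hmass]

end Pool.Agent.Helper85.SP.INQ
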