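import Pool.Agent.Helper85.SP.Base

/-! Module RED (helper59): reduction to spectrally pseudorandom sets. -/

set_option autoImplicit false

open Finset Filter

namespace Pool.Agent.Helper85.SP.RED

lemma part1 (h : S_AVOID) (g : ℕ → ℝ) (hg0 : ∀ᶠ N : ℕ in atTop, 0 < g N)
    (hg : ∀ ε : ℝ, 0 < ε → ∀ᶠ N : ℕ in atTop, g N ≤ (N : ℝ) ^ ε) (hF : ForcesIn Pseudo g) :
    ForcesIn (fun _ => True) g := by
  intro A _ hD K
  by_contra hcon
  push Not at hcon
  have hP : Pseudo A := by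
    intro κ δ hκ
    obtain ⟨β, hβ⟩ : ∃ β : ℝ, β = min (1 / 4) ((δ / 2 - κ) / 2) := ⟨_, rfl⟩
    have h1 : β ≤ 1 / 4 := by rw [hβ]; exact min_le_left _ _
    have h2 : β ≤ (δ / 2 - κ) / 2 := by rw [hβ]; exact min_le_right _ _
    have h3 : 0 < β := by rw [hβ]; exact lt_min (by norm_num) (by linarith)
    obtain ⟨η, hη, hA⟩ := h β κ δ (by linarith) (by linarith)
    exact ⟨η, hη, hA A g ⟨K, hcon⟩ hD (hg0.and (hg β h3))⟩
  obtain ⟨n, hn⟩ := hF A hP hD K
  exact absurd (hcon n) (not_le.2 hn)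

lemma log_le (ε : ℝ) (hε : 0 < ε) : ∀ᶠ N : ℕ in atTop, Real.log (N + 2) ≤ (N : ℝ) ^ ε := by
  have h1 := isLittleO_log_rpow_atTop hε
  have h2 : ∀ᶠ x : ℝ in atTop, Real.log x ≤ (1 / 2) ^ ε * (x ^ ε) := by
    have h3 := h1.bound (show (0 : ℝ) < (1 / 2) ^ ε by positivity)
    filter_upwards [h3, eventually_ge_atTop (1 : ℝ)] with x hx hx1
    rw [Real.norm_eq_abs, Real.norm_eq_abs, abs_of_nonneg (Real.log_nonneg hx1),
      abs_of_nonneg (by positivity)] at hx
    exact hx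
  have h4 : Tendsto (fun N : ℕ => (N : ℝ) + 2) atTop atTop :=
    tendsto_atTop_add_const_right _ _ tendsto_natCast_atTop_atTop
  filter_upwards [h4.eventually h2, eventually_ge_atTop 2] with N hN hN2
  refine hN.trans ?_
  rw [← Real.mul_rpow (by norm_num) (by positivity)]
  have h5 : (2 : ℝ) ≤ N := by exact_mod_cast hN2
  exact Real.rpow_le_rpow (by positivity) (by linarith) hε.le

theorem main (h : S_AVOID) : S_RED := by
  refine ⟨fun g hg0 hg => ⟨fun hF A _ hD K => hF A trivial hD K, part1 h g hg0 hg⟩, ?_, ?_⟩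
  · rintro ⟨g, hg, hF⟩
    exact ⟨g, hg, fun A _ hD K => hF A trivial hD K⟩
  · rintro ⟨g, hg, hF⟩
    obtain ⟨g2, hg2⟩ : ∃ g2 : ℕ → ℝ, g2 = fun N : ℕ => min (g N) (Real.log (N + 2)) := ⟨_, rfl⟩
    have hl : Tendsto (fun N : ℕ => Real.log ((N : ℝ) + 2)) atTop atTop :=
      Real.tendsto_log_atTop.comp (tendsto_atTop_add_const_right _ _ tendsto_natCast_atTop_atTop)
    have ht : Tendsto g2 atTop atTop := by
      rw [hg2]
      exact Filter.tendsto_atTop_atTop.2 fun b => by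
        obtain ⟨N1, h1⟩ := Filter.eventually_atTop.1 (hg.eventually (eventually_ge_atTop b))
        obtain ⟨N2, h2⟩ := Filter.eventually_atTop.1 (hl.eventually (eventually_ge_atTop b))
        exact ⟨N1 + N2, fun N hN => le_min (h1 N (by omega)) (h2 N (by omega))⟩
    have hpos : ∀ᶠ N : ℕ in atTop, 0 < g2 N := ht.eventually (eventually_gt_atTop 0)
    refine ⟨g2, ht, part1 h g2 hpos (fun ε hε => ?_) ?_⟩
    · filter_upwards [log_le ε hε] with N hN
      rw [hg2]
      exact (min_le_right _ _).trans hN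
    · intro A hA hD K
      refine hF A hA ?_ K
      obtain ⟨C, hC, hD⟩ := hD
      refine ⟨C, hC, ?_⟩
      filter_upwards [hD, hpos] with N hN hN0
      refine le_trans ?_ hN
      have h3 : g2 N ≤ g N := by rw [hg2]; exact min_le_left _ _
      exact div_le_div_of_nonneg_left (Real.sqrt_nonneg _) hN0 h3

end Pool.Agent.Helper85.SP.RED
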