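import Pool.Agent.Helper85.SP.Base
import Pool.Agent.Helper42.GC.Thr

/-! # The thresholds inside the classes of given spectral scale (helper93) -/

set_option autoImplicit false

open Finset Filter

namespace Pool.Agent.Helper85.SP.SCALE

open Pool.Agent.Helper76.FX (phi_tendsto)
open Pool.Agent.Helper42.GC (Scale clG_lower clG_upper)

theorem mem_seg {A : Set ℕ} {N a : ℕ} : a ∈ seg A N ↔ a < N ∧ a ∈ A := by
  classical
  unfold seg
  rw [mem_filter, mem_range]

theorem seg_le (A : Set ℕ) (N : ℕ) :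
    ((seg A N).card : ℝ) ≤ ((A ∩ Set.Icc 1 N).ncard : ℝ) + 1 := by
  have hfin : (A ∩ Set.Icc 1 N).Finite := (Set.finite_Icc 1 N).inter_of_right A
  have h1 : (seg A N : Set ℕ) ⊆ insert 0 (A ∩ Set.Icc 1 N) := by
    intro a ha
    rw [Finset.mem_coe, mem_seg] at ha
    rcases Nat.eq_zero_or_pos a with h | h
    · exact Or.inl h
    · exact Or.inr ⟨ha.2, h, ha.1.le⟩
  have h2 := Set.ncard_le_ncard h1 (hfin.insert 0)
  rw [Set.ncard_coe_finset] at h2
  have h3 := Set.ncard_insert_le 0 (A ∩ Set.Icc 1 N)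
  exact_mod_cast h2.trans h3

theorem le_seg (A : Set ℕ) (N : ℕ) :
    ((A ∩ Set.Icc 1 N).ncard : ℝ) ≤ ((seg A N).card : ℝ) + 1 := by
  have h1 : A ∩ Set.Icc 1 N ⊆ insert N (seg A N : Set ℕ) := by
    rintro a ⟨ha, h1, h2⟩
    rcases Nat.lt_or_ge a N with h | h
    · exact Or.inr (by rw [Finset.mem_coe, mem_seg]; exact ⟨h, ha⟩)
    · exact Or.inl (le_antisymm h2 h)
  have h2 := Set.ncard_le_ncard h1 ((Finset.finite_toSet _).insert N)
  have h3 := Set.ncard_insert_le N (seg A N : Set ℕ)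
  rw [Set.ncard_coe_finset] at h3
  exact_mod_cast h2.trans h3

theorem spec_nonneg {M : ℕ} [NeZero M] (F : ZMod M → ℂ) : 0 ≤ spec F :=
  Finset.sum_nonneg fun _ _ => norm_nonneg _

theorem mass_nonneg {M : ℕ} [NeZero M] (F : ZMod M → ℂ) : 0 ≤ mass F :=
  Finset.sum_nonneg fun _ _ => by positivity

theorem main (h : S_INQ) (h2 : S_IND) : S_SCALE := by
  intro φ hmono hlog ⟨c, hsq⟩ hsmall
  have htend : Tendsto φ atTop atTop := phi_tendsto hlog
  refine ⟨?_, ?_, ?_⟩
  · rintro A ⟨C, hC⟩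
    refine ⟨C, ?_⟩
    filter_upwards [hC, htend.eventually_ge_atTop 1] with N h1 h3
    refine ⟨2 * N + 1, ⟨by omega⟩, by omega, ?_⟩
    have : NeZero (2 * N + 1) := ⟨by omega⟩
    have h4 := h2.1 (2 * N + 1) (ind (seg A N) (2 * N + 1))
    have h5 := (h2.2 (seg A N) (2 * N + 1) (fun s hs => by
      have := (mem_seg.1 hs).1
      omega)).1
    rw [h5] at h4
    have h6 : (1 : ℝ) ≤ φ N ^ C := one_le_pow₀ h3
    refine (pow_le_pow_iff_left₀ (spec_nonneg _) (by positivity) two_ne_zero).1 ?_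
    calc spec (ind (seg A N) (2 * N + 1)) ^ 2 ≤ ((seg A N).card : ℝ) := h4
      _ ≤ φ N ^ C := h1
      _ ≤ (φ N ^ C) ^ 2 := by nlinarith
  · rintro A ⟨C, hC⟩
    refine ⟨C, ?_⟩
    filter_upwards [hC, htend.eventually_ge_atTop 1] with N h1 h3
    obtain ⟨M, hM, hNM, h4⟩ := h1
    have h5 := h2.2 (seg A N) M (fun s hs => by
      have := (mem_seg.1 hs).1
      omega)
    have h6 : (1 : ℝ) ≤ φ N ^ C := one_le_pow₀ h3
    have h7 : ‖∑ a ∈ seg A N, ind (seg A N) M (a : ZMod M)‖ = ((seg A N).card : ℝ) := by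
      rw [h5.2]
      simp
    refine ⟨M, hM, ind (seg A N) M, hNM, h4, ?_, ?_⟩
    · rw [h7, h5.1]
      have : (0 : ℝ) ≤ ((seg A N).card : ℝ) := Nat.cast_nonneg _
      nlinarith
    · rw [h7]
      have : (0 : ℝ) ≤ ((seg A N).card : ℝ) := Nat.cast_nonneg _
      nlinarith
  · intro 𝒞 hS hH g
    constructor
    · intro hF C hcon
      simp only [not_lt] at hcon
      obtain ⟨A, hA, ⟨R, hR⟩, hlow⟩ := clG_lower hmono hlog hsq hsmall C
      obtain ⟨E, hE⟩ := clG_upper hlog hA hR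
      have hsm : Small φ A := by
        refine ⟨E + 1, ?_⟩
        filter_upwards [hE, htend.eventually_ge_atTop 2] with N h1 h3
        have h4 := seg_le A N
        have h5 : (1 : ℝ) ≤ φ N ^ E := one_le_pow₀ (by linarith)
        rw [pow_succ]
        nlinarith
      obtain ⟨n, hn⟩ := hF A (hS A hsm) ⟨1, one_pos, by
        filter_upwards [hcon, hlow] with N h1 h2
        linarith⟩ R
      have h6 : rep A n ≤ R := hR n
      omega
    · intro hf A hA hD K
      by_contra hcon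
      push Not at hcon
      obtain ⟨C, hC⟩ := hH A hA
      obtain ⟨C', hC', hD⟩ := hD
      obtain ⟨N, h1, ⟨h3, h4⟩, h5⟩ := ((hf (6 * C + 2)).and_eventually ((hC.and hD).and
        (htend.eventually_ge_atTop (max C' ((K : ℝ) + 1))))).exists
      have hK0 : (0 : ℝ) ≤ K := Nat.cast_nonneg _
      have h6 : (K : ℝ) + 1 ≤ φ N := (le_max_right _ _).trans h5
      have h7 : C' ≤ φ N := (le_max_left _ _).trans h5
      have hφ1 : 1 ≤ φ N := by linarith
      obtain ⟨M, hM, F, hNM, hs, hm, ha⟩ := h3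
      have h8 := h A K hcon N M hNM (seg A N) (fun s hs => ⟨(mem_seg.1 hs).2, (mem_seg.1 hs).1⟩) F
      obtain ⟨w, hw⟩ : ∃ w : ℝ, w = ‖∑ a ∈ seg A N, F (a : ZMod M)‖ := ⟨_, rfl⟩
      obtain ⟨a, haa⟩ : ∃ a : ℝ, a = ((seg A N).card : ℝ) := ⟨_, rfl⟩
      obtain ⟨P, hP⟩ : ∃ P : ℝ, P = φ N ^ C := ⟨_, rfl⟩
      rw [← hw] at hm ha h8
      rw [← haa] at ha h8
      rw [← hP] at hs hm ha
      have hP1 : 1 ≤ P := by rw [hP]; exact one_le_pow₀ hφ1
      have hw0 : 0 ≤ w := by rw [hw]; exact norm_nonneg _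
      have ha0 : 0 ≤ a := by rw [haa]; exact Nat.cast_nonneg _
      have hs0 := spec_nonneg F
      have hm0 := mass_nonneg F
      have h9 : w ^ 4 ≤ K * a ^ 2 * P ^ 2 * (P * w) := by
        refine h8.trans ?_
        gcongr
      have h10 : a ≤ K * P ^ 6 := by
        rcases hw0.eq_or_lt with hz | hz
        · rw [← hz, mul_zero] at ha
          have : 0 ≤ K * P ^ 6 := by positivity
          linarith
        · have h11 : w ^ 3 ≤ K * a ^ 2 * P ^ 3 := by
            have h12 : w * w ^ 3 ≤ w * (K * a ^ 2 * P ^ 3) := by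
              calc w * w ^ 3 = w ^ 4 := by ring
                _ ≤ K * a ^ 2 * P ^ 2 * (P * w) := h9
                _ = w * (K * a ^ 2 * P ^ 3) := by ring
            exact le_of_mul_le_mul_left h12 hz
          have h13 : a ^ 3 ≤ a ^ 2 * (K * P ^ 6) := by
            calc a ^ 3 ≤ (P * w) ^ 3 := pow_le_pow_left₀ ha0 ha 3
              _ = P ^ 3 * w ^ 3 := by ring
              _ ≤ P ^ 3 * (K * a ^ 2 * P ^ 3) := by gcongr
              _ = a ^ 2 * (K * P ^ 6) := by ring
          rcases ha0.eq_or_lt with hz' | hz'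
          · rw [← hz']
            positivity
          · have h14 : a ^ 2 * a ≤ a ^ 2 * (K * P ^ 6) := by
              calc a ^ 2 * a = a ^ 3 := by ring
                _ ≤ _ := h13
            exact le_of_mul_le_mul_left h14 (by positivity)
      have h11 := le_seg A N
      rw [← haa] at h11
      have hP6 : P ^ 6 = φ N ^ (6 * C) := by
        rw [hP, ← pow_mul, mul_comm]
      have hP61 : 1 ≤ P ^ 6 := one_le_pow₀ hP1
      have h12 : Real.sqrt N / g N ≤ φ N ^ (6 * C + 2) := by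
        calc Real.sqrt N / g N ≤ C' * ((A ∩ Set.Icc 1 N).ncard : ℝ) := h4
          _ ≤ C' * ((K + 1) * P ^ 6) := by
              gcongr
              nlinarith
          _ ≤ φ N * (φ N * P ^ 6) := by gcongr
          _ = φ N ^ (6 * C + 2) := by rw [hP6]; ring
      linarith

end Pool.Agent.Helper85.SP.SCALE
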