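import Pool.Agent.Helper85.SP.Base
import Pool.Agent.Helper76.FX.Gen

/-! Module SHARP (helper59): the inequality is sharp. -/

set_option autoImplicit false

open Finset Filter

namespace Pool.Agent.Helper85.SP.SHARP

open Pool.Agent.Helper76.FX (sid sid_spec)

/-- the sparse set -/
noncomputable def SS (x y : ℕ) : Finset ℕ := (sid x ×ˢ sid y).image fun p => 2 * y * p.1 + p.2

/-- the set of intervals -/
noncomputable def TT (x y : ℕ) : Finset ℕ := (sid x ×ˢ range (2 * y)).image fun p => 2 * y * p.1 + p.2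

lemma dec {y b s b' s' : ℕ} (hs : s < 2 * y) (hs' : s' < 2 * y) (h : 2 * y * b + s = 2 * y * b' + s') :
    b = b' ∧ s = s' := by
  have h1 : (2 * y * b + s) / (2 * y) = b := by
    rw [Nat.mul_add_div (by omega), Nat.div_eq_of_lt hs, add_zero]
  have h2 : (2 * y * b' + s') / (2 * y) = b' := by
    rw [Nat.mul_add_div (by omega), Nat.div_eq_of_lt hs', add_zero]
  have h3 : b = b' := by rw [← h1, ← h2, h]
  subst h3
  exact ⟨rfl, by omega⟩

lemma card_TT {x y : ℕ} : (TT x y).card = (sid x).card * (2 * y) := by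
  rw [TT, card_image_of_injOn, card_product, card_range]
  rintro ⟨b, s⟩ h1 ⟨b', s'⟩ h2 h3
  rw [coe_product, Set.mem_prod] at h1 h2
  have h4 := dec (mem_range.1 (mem_coe.1 h1.2)) (mem_range.1 (mem_coe.1 h2.2)) h3
  exact Prod.ext h4.1 h4.2

lemma card_SS {x y : ℕ} (hy : 1 ≤ y) : (SS x y).card = (sid x).card * (sid y).card := by
  rw [SS, card_image_of_injOn, card_product]
  rintro ⟨b, s⟩ h1 ⟨b', s'⟩ h2 h3
  rw [coe_product, Set.mem_prod] at h1 h2
  have h5 := (sid_spec hy).2.1 s (mem_coe.1 h1.2)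
  have h6 := (sid_spec hy).2.1 s' (mem_coe.1 h2.2)
  have h4 := dec (by omega) (by omega) h3
  exact Prod.ext h4.1 h4.2

lemma TT_lt {x y : ℕ} (hx : 1 ≤ x) {t : ℕ} (ht : t ∈ TT x y) : t < 2 * x * y := by
  rw [TT, mem_image] at ht
  obtain ⟨⟨b, s⟩, h1, rfl⟩ := ht
  rw [mem_product, mem_range] at h1
  have h2 := (sid_spec hx).2.1 b h1.1
  have h3 : 2 * y * (b + 1) ≤ 2 * y * x := Nat.mul_le_mul_left _ h2
  calc 2 * y * b + s < 2 * y * b + 2 * y := by have := h1.2; simp only at this; omega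
    _ = 2 * y * (b + 1) := by ring
    _ ≤ 2 * y * x := h3
    _ = 2 * x * y := by ring

lemma SS_sub {x y : ℕ} (hy : 1 ≤ y) {t : ℕ} (ht : t ∈ SS x y) : t ∈ TT x y := by
  rw [SS, mem_image] at ht
  obtain ⟨⟨b, s⟩, h1, rfl⟩ := ht
  rw [mem_product] at h1
  have h2 := (sid_spec hy).2.1 s h1.2
  rw [TT, mem_image]
  exact ⟨(b, s), mem_product.2 ⟨h1.1, mem_range.2 (by simp only at h2 ⊢; omega)⟩, rfl⟩

/-- the Sidon set is small -/
lemma card_sid {x : ℕ} (hx : 1 ≤ x) : (sid x).card ^ 2 ≤ 4 * x := by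
  classical
  have h1 : (sid x ×ˢ sid x).card ≤ 2 * ((sid x ×ˢ sid x).image fun p => p.1 + p.2).card := by
    refine card_le_mul_card_image _ 2 fun a ha => ?_
    obtain ⟨⟨b0, c0⟩, h2, h3⟩ := mem_image.1 ha
    rw [mem_product] at h2
    refine (card_le_card (t := {(b0, c0), (c0, b0)}) ?_).trans card_le_two
    rintro ⟨b, c⟩ hbc
    rw [mem_filter, mem_product] at hbc
    obtain ⟨⟨h4, h5⟩, h6⟩ := hbc
    simp only at h2 h3 h4 h5 h6
    rw [mem_insert, mem_singleton]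
    rcases (sid_spec hx).2.2.1 b h4 c h5 b0 h2.1 c0 h2.2 (by omega) with ⟨h7, h8⟩ | ⟨h7, h8⟩
    · left; rw [h7, h8]
    · right; rw [h7, h8]
  have h2 : ((sid x ×ˢ sid x).image fun p => p.1 + p.2).card ≤ 2 * x := by
    refine (card_le_card (t := range (2 * x)) ?_).trans (card_range _).le
    intro a ha
    obtain ⟨⟨b, c⟩, h3, h4⟩ := mem_image.1 ha
    rw [mem_product] at h3
    have h5 := (sid_spec hx).2.1 b h3.1
    have h6 := (sid_spec hx).2.1 c h3.2
    rw [mem_range]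
    simp only at h4
    omega
  rw [card_product] at h1
  nlinarith

lemma rep_SS {x y : ℕ} (hx : 1 ≤ x) (hy : 1 ≤ y) (n : ℕ) : rep (SS x y : Set ℕ) n ≤ 4 := by
  classical
  unfold rep
  by_cases hne : {p : ℕ × ℕ | p.1 ∈ (SS x y : Set ℕ) ∧ p.2 ∈ (SS x y : Set ℕ) ∧ p.1 + p.2 = n} = ∅
  · rw [hne, Set.ncard_empty]
    omega
  obtain ⟨⟨a0, a0'⟩, h0, h0', h0s⟩ := Set.nonempty_iff_ne_empty.2 hne
  rw [mem_coe, SS, mem_image] at h0 h0'
  obtain ⟨⟨b0, s0⟩, hb0, e0⟩ := h0
  obtain ⟨⟨b1, s1⟩, hb1, e1⟩ := h0'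
  rw [mem_product] at hb0 hb1
  simp only at e0 e1 hb0 hb1 h0s
  have l0 := (sid_spec hy).2.1 s0 hb0.2
  have l1 := (sid_spec hy).2.1 s1 hb1.2
  refine (Set.ncard_le_ncard (t := (({(2 * y * b0 + s0, 2 * y * b1 + s1),
    (2 * y * b0 + s1, 2 * y * b1 + s0), (2 * y * b1 + s0, 2 * y * b0 + s1),
    (2 * y * b1 + s1, 2 * y * b0 + s0)} : Finset (ℕ × ℕ)) : Set (ℕ × ℕ))) ?_
    (Finset.finite_toSet _)).trans ?_
  · rintro ⟨a, a'⟩ ⟨h1, h1', h1s⟩
    rw [mem_coe, SS, mem_image] at h1 h1'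
    obtain ⟨⟨b, s⟩, hb, e⟩ := h1
    obtain ⟨⟨b', s'⟩, hb', e'⟩ := h1'
    rw [mem_product] at hb hb'
    simp only at e e' hb hb' h1s
    have l := (sid_spec hy).2.1 s hb.2
    have l' := (sid_spec hy).2.1 s' hb'.2
    have h2 : 2 * y * (b + b') + (s + s') = 2 * y * (b0 + b1) + (s0 + s1) := by
      have : 2 * y * b + s + (2 * y * b' + s') = 2 * y * b0 + s0 + (2 * y * b1 + s1) := by
        rw [e, e', e0, e1, h1s, h0s]
      linarith
    obtain ⟨h3, h4⟩ := dec (y := y) (by omega) (by omega) h2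
    rw [mem_coe]
    simp only [mem_insert, mem_singleton]
    rw [← e, ← e']
    rcases (sid_spec hx).2.2.1 b hb.1 b' hb'.1 b0 hb0.1 b1 hb1.1 h3 with ⟨h5, h6⟩ | ⟨h5, h6⟩ <;>
    rcases (sid_spec hy).2.2.1 s hb.2 s' hb'.2 s0 hb0.2 s1 hb1.2 h4 with ⟨h7, h8⟩ | ⟨h7, h8⟩
    · left; rw [h5, h6, h7, h8]
    · right; left; rw [h5, h6, h7, h8]
    · right; right; left; rw [h5, h6, h7, h8]
    · right; right; right; rw [h5, h6, h7, h8]
  · rw [Set.ncard_coe_finset]
    exact card_le_four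

lemma sum_val (M : ℕ) [NeZero M] (f : ℕ → ℝ) : ∑ w : ZMod M, f w.val = ∑ i ∈ range M, f i := by
  refine sum_nbij (fun w => w.val) (fun w _ => mem_range.2 (ZMod.val_lt w)) ?_ ?_ fun _ _ => rfl
  · intro a _ b _ hab
    exact ZMod.val_injective M hab
  · intro i hi
    rw [mem_coe, mem_range] at hi
    exact ⟨(i : ZMod M), by simp, ZMod.val_natCast_of_lt hi⟩

section functions

variable (x y M : ℕ) [NeZero M]

open Classical in
/-- indicator function of the intervals -/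
noncomputable def ur (w : ZMod M) : ℝ := if w.val ∈ TT x y then 1 else 0

/-- mean over an interval of length `2 y` -/
noncomputable def hr (z : ZMod M) : ℝ := if (-z).val < 2 * y then 1 / (2 * y : ℝ) else 0

variable {x y M}

omit [NeZero M] in
lemma ur_nonneg (w : ZMod M) : 0 ≤ ur x y M w := by
  unfold ur; split_ifs <;> norm_num

omit [NeZero M] in
lemma ur_le (w : ZMod M) : ur x y M w ≤ 1 := by
  unfold ur; split_ifs <;> norm_num

omit [NeZero M] in
lemma ur_sq (w : ZMod M) : ur x y M w ^ 2 = ur x y M w := by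
  unfold ur; split_ifs <;> norm_num

omit [NeZero M] in
lemma hr_nonneg (z : ZMod M) : 0 ≤ hr y M z := by
  unfold hr; split_ifs <;> positivity

omit [NeZero M] in
lemma hr_sq (z : ZMod M) : hr y M z ^ 2 = 1 / (2 * y : ℝ) * hr y M z := by
  unfold hr
  split_ifs
  · ring
  · ring

lemma sum_ur (hx : 1 ≤ x) (hM : 4 * x * y ≤ M) : ∑ w, ur x y M w = (sid x).card * (2 * y) := by
  classical
  have h1 : ∑ w : ZMod M, ur x y M w = ∑ w : ZMod M, (fun i : ℕ => if i ∈ TT x y then (1 : ℝ) else 0) w.val := by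
    refine sum_congr rfl fun w _ => ?_
    unfold ur
    simp only
  rw [h1, sum_val M (fun i : ℕ => if i ∈ TT x y then (1 : ℝ) else 0)]
  rw [← sum_filter, sum_const, nsmul_eq_mul, mul_one]
  have h2 : (range M).filter (fun i => i ∈ TT x y) = TT x y := by
    ext i
    rw [mem_filter, mem_range]
    constructor
    · exact fun h => h.2
    · intro h
      have h3 := TT_lt hx h
      have h4 : 2 * x * y ≤ 4 * x * y := by nlinarith
      exact ⟨by omega, h⟩
  rw [h2, card_TT]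
  push_cast
  ring

lemma sum_hr (hx : 1 ≤ x) (hy : 1 ≤ y) (hM : 4 * x * y ≤ M) : ∑ z, hr y M z = 1 := by
  have h1 : ∑ z : ZMod M, hr y M z =
      ∑ z : ZMod M, (fun i : ℕ => if i < 2 * y then 1 / (2 * y : ℝ) else 0) z.val := by
    rw [← Equiv.sum_comp (Equiv.neg (ZMod M)) (hr y M)]
    refine sum_congr rfl fun z _ => ?_
    unfold hr
    simp only [Equiv.neg_apply, neg_neg]
  rw [h1, sum_val M (fun i : ℕ => if i < 2 * y then 1 / (2 * y : ℝ) else 0), ← sum_filter, sum_const,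
    nsmul_eq_mul]
  have h2 : (range M).filter (fun i => i < 2 * y) = range (2 * y) := by
    ext i
    rw [mem_filter, mem_range, mem_range]
    constructor
    · exact fun h => h.2
    · intro h
      have h4 : 2 * y ≤ 4 * x * y := by nlinarith
      exact ⟨by omega, h⟩
  rw [h2, card_range]
  have : (y : ℝ) ≠ 0 := by
    have : 0 < y := hy
    positivity
  push_cast
  field_simp

/-- the convolution -/
noncomputable def Fr (x y M : ℕ) [NeZero M] (z : ZMod M) : ℝ := ∑ w, ur x y M w * hr y M (z - w)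

lemma Fr_nonneg (z : ZMod M) : 0 ≤ Fr x y M z :=
  sum_nonneg fun w _ => mul_nonneg (ur_nonneg w) (hr_nonneg _)

lemma Fr_le (hx : 1 ≤ x) (hy : 1 ≤ y) (hM : 4 * x * y ≤ M) (z : ZMod M) : Fr x y M z ≤ 1 := by
  calc Fr x y M z ≤ ∑ w, hr y M (z - w) :=
        sum_le_sum fun w _ => mul_le_of_le_one_left (hr_nonneg _) (ur_le w)
    _ = ∑ w, hr y M w := Equiv.sum_comp (Equiv.subLeft z) (hr y M)
    _ = 1 := sum_hr hx hy hM

lemma sum_Fr (hx : 1 ≤ x) (hy : 1 ≤ y) (hM : 4 * x * y ≤ M) :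
    ∑ z, Fr x y M z = (sid x).card * (2 * y) := by
  unfold Fr
  rw [sum_comm]
  rw [← sum_ur hx hM]
  refine sum_congr rfl fun w _ => ?_
  rw [← mul_sum]
  have : ∑ z, hr y M (z - w) = ∑ z, hr y M z := Equiv.sum_comp (Equiv.subRight w) (hr y M)
  rw [this, sum_hr hx hy hM, mul_one]

lemma Fr_half (hx : 1 ≤ x) (hy : 1 ≤ y) (hM : 4 * x * y ≤ M) {s : ℕ} (hs : s ∈ SS x y) :
    1 / 2 ≤ Fr x y M (s : ZMod M) := by
  classical
  rw [SS, mem_image] at hs
  obtain ⟨⟨b, s0⟩, h1, rfl⟩ := hs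
  rw [mem_product] at h1
  simp only at h1 ⊢
  have hs0 := (sid_spec hy).2.1 s0 h1.2
  have hmem : ∀ j < y, 2 * y * b + s0 + j ∈ TT x y := by
    intro j hj
    rw [TT, mem_image]
    exact ⟨(b, s0 + j), mem_product.2 ⟨h1.1, mem_range.2 (by simp only; omega)⟩, by simp only; ring⟩
  have hlt : ∀ j < y, 2 * y * b + s0 + j < M := fun j hj => by
    have h3 := TT_lt hx (hmem j hj)
    have h4 : 2 * x * y ≤ 4 * x * y := by nlinarith
    omega
  have hyM : y ≤ M := by
    have h4 : y ≤ 4 * x * y := by nlinarith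
    omega
  have hinj : Set.InjOn (fun j : ℕ => ((2 * y * b + s0 + j : ℕ) : ZMod M)) (range y : Finset ℕ) := by
    intro i hi j hj hij
    rw [mem_coe, mem_range] at hi hj
    have h3 := congrArg ZMod.val hij
    simp only at h3
    rw [ZMod.val_natCast_of_lt (hlt i hi), ZMod.val_natCast_of_lt (hlt j hj)] at h3
    omega
  have h2 : ∑ w ∈ (range y).image (fun j : ℕ => ((2 * y * b + s0 + j : ℕ) : ZMod M)),
      ur x y M w * hr y M (((2 * y * b + s0 : ℕ) : ZMod M) - w) = y * (1 / (2 * y : ℝ)) := by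
    rw [sum_image hinj]
    rw [sum_congr rfl (g := fun _ => 1 / (2 * y : ℝ)), sum_const, card_range, nsmul_eq_mul]
    intro j hj
    rw [mem_range] at hj
    have h3 : ur x y M ((2 * y * b + s0 + j : ℕ) : ZMod M) = 1 := by
      unfold ur
      rw [ZMod.val_natCast_of_lt (hlt j hj), if_pos (hmem j hj)]
    have h4 : hr y M (((2 * y * b + s0 : ℕ) : ZMod M) - ((2 * y * b + s0 + j : ℕ) : ZMod M)) =
        1 / (2 * y : ℝ) := by
      unfold hr
      rw [if_pos]
      have h5 : -(((2 * y * b + s0 : ℕ) : ZMod M) - ((2 * y * b + s0 + j : ℕ) : ZMod M)) = (j : ZMod M) := by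
        push_cast
        ring
      rw [h5, ZMod.val_natCast_of_lt (by omega)]
      omega
    rw [h3, h4, one_mul]
  have h3 : (y : ℝ) * (1 / (2 * y : ℝ)) = 1 / 2 := by
    have : (y : ℝ) ≠ 0 := by
      have : 0 < y := hy
      positivity
    field_simp
  rw [← h3, ← h2]
  unfold Fr
  exact sum_le_sum_of_subset_of_nonneg (subset_univ _)
    fun w _ _ => mul_nonneg (ur_nonneg w) (hr_nonneg _)

end functions

theorem main (h : S_CONV) : S_SHARP := by
  refine ⟨1024, fun x y hx hy => ⟨SS x y, fun s hs => TT_lt hx (SS_sub hy hs), rep_SS hx hy, ?_, ?_⟩⟩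
  · have h1 : (x : ℝ) ≤ 32 * ((sid x).card : ℝ) ^ 2 := by exact_mod_cast (sid_spec hx).2.2.2
    have h2 : (y : ℝ) ≤ 32 * ((sid y).card : ℝ) ^ 2 := by exact_mod_cast (sid_spec hy).2.2.2
    rw [card_SS hy]
    push_cast
    calc (x : ℝ) * y ≤ (32 * ((sid x).card : ℝ) ^ 2) * (32 * ((sid y).card : ℝ) ^ 2) :=
          mul_le_mul h1 h2 (Nat.cast_nonneg _) (by positivity)
      _ = 1024 * (((sid x).card : ℝ) * (sid y).card) ^ 2 := by ring
  · intro M _ hM
    have hy0 : (0 : ℝ) < y := by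
      have : 0 < y := hy
      positivity
    have hB : (((sid x).card : ℝ)) ^ 2 ≤ 4 * x := by exact_mod_cast card_sid hx
    have hF : ∀ z : ZMod M, (∑ w, ((ur x y M w : ℝ) : ℂ) * ((hr y M (z - w) : ℝ) : ℂ)) =
        ((Fr x y M z : ℝ) : ℂ) := by
      intro z
      unfold Fr
      push_cast
      rfl
    refine ⟨fun z => ∑ w, ((ur x y M w : ℝ) : ℂ) * ((hr y M (z - w) : ℝ) : ℂ), fun z =>
      ⟨Fr x y M z, hF z, Fr_nonneg z, Fr_le hx hy hM z⟩, fun s hs => ?_, ?_, ?_⟩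
    · beta_reduce
      rw [hF, Complex.ofReal_re]
      exact Fr_half hx hy hM hs
    · have h1 := h M (fun w => ((ur x y M w : ℝ) : ℂ)) (fun z => ((hr y M z : ℝ) : ℂ))
      have h2 : mass (fun w => ((ur x y M w : ℝ) : ℂ)) = (sid x).card * (2 * y) := by
        unfold mass
        rw [← sum_ur hx hM]
        refine sum_congr rfl fun w _ => ?_
        rw [Complex.norm_real, Real.norm_eq_abs, sq_abs, ur_sq]
      have h3 : mass (fun z => ((hr y M z : ℝ) : ℂ)) = 1 / (2 * y : ℝ) := by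
        unfold mass
        have : ∑ z : ZMod M, ‖((hr y M z : ℝ) : ℂ)‖ ^ 2 = ∑ z : ZMod M, 1 / (2 * y : ℝ) * hr y M z := by
          refine sum_congr rfl fun z _ => ?_
          rw [Complex.norm_real, Real.norm_eq_abs, sq_abs, hr_sq]
        rw [this, ← mul_sum, sum_hr hx hy hM, mul_one]
      rw [h2, h3] at h1
      have h4 : ((sid x).card : ℝ) * (2 * y) * (1 / (2 * y : ℝ)) = (sid x).card := by
        field_simp
      rw [h4] at h1
      have h5 := pow_le_pow_left₀ (sq_nonneg _) h1 2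
      rw [← pow_mul] at h5
      exact h5.trans hB
    · have h1 : mass (fun z => ∑ w, ((ur x y M w : ℝ) : ℂ) * ((hr y M (z - w) : ℝ) : ℂ)) ≤
          (sid x).card * (2 * y) := by
        unfold mass
        rw [← sum_Fr hx hy hM]
        refine sum_le_sum fun z _ => ?_
        beta_reduce
        rw [hF, Complex.norm_real, Real.norm_eq_abs, sq_abs, sq]
        exact mul_le_of_le_one_left (Fr_nonneg z) (Fr_le hx hy hM z)
      have h0 : 0 ≤ mass (fun z => ∑ w, ((ur x y M w : ℝ) : ℂ) * ((hr y M (z - w) : ℝ) : ℂ)) := by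
        unfold mass
        positivity
      have h2 := pow_le_pow_left₀ h0 h1 2
      refine h2.trans ?_
      calc (((sid x).card : ℝ) * (2 * (y : ℝ))) ^ 2 = ((sid x).card : ℝ) ^ 2 * (4 * (y : ℝ) ^ 2) := by ring
        _ ≤ (4 * (x : ℝ)) * (4 * (y : ℝ) ^ 2) := mul_le_mul_of_nonneg_right hB (by positivity)
        _ = 16 * (x : ℝ) * (y : ℝ) ^ 2 := by ring

end Pool.Agent.Helper85.SP.SHARP
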