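import Pool.Agent.Helper85.SP.Base
import Pool.Agent.Helper76.FX.Pow

set_option autoImplicit false

open Finset Filter

namespace Pool.Agent.Helper85.SP.THIN

open Pool.Agent.Helper85.SP

lemma rep_finite (A : Set ℕ) (n : ℕ) :
    {p : ℕ × ℕ | p.1 ∈ A ∧ p.2 ∈ A ∧ p.1 + p.2 = n}.Finite :=
  (antidiagonal n).finite_toSet.subset fun _ hp => mem_coe.2 (mem_antidiagonal.2 hp.2.2)

lemma mem_seg {A : Set ℕ} {N x : ℕ} : x ∈ seg A N ↔ x < N ∧ x ∈ A := by
  classical
  unfold seg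
  rw [mem_filter, mem_range]

lemma card_sq {A : Set ℕ} {R : ℕ} (h : ∀ n, rep A n ≤ R) (N : ℕ) :
    (seg A N).card ^ 2 ≤ R * (2 * N) := by
  classical
  have h1 := Finset.card_le_mul_card_image_of_maps_to
    (s := seg A N ×ˢ seg A N) (t := range (2 * N)) (f := fun p => p.1 + p.2) (n := R) (by
      intro p hp
      rw [mem_product, mem_seg, mem_seg] at hp
      rw [mem_range]
      omega) (by
      intro n _
      refine le_trans ?_ (h n)
      unfold rep
      rw [← Set.ncard_coe_finset]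
      refine Set.ncard_le_ncard ?_ (rep_finite A n)
      intro p hp
      rw [mem_coe, mem_filter, mem_product, mem_seg, mem_seg] at hp
      exact ⟨hp.1.1.2, hp.1.2.2, hp.2⟩)
  rw [card_product, card_range, ← sq] at h1
  exact h1

lemma seg_succ_card (A : Set ℕ) (N : ℕ) [Decidable (N ∈ A)] :
    (seg A (N + 1)).card = (seg A N).card + if N ∈ A then 1 else 0 := by
  classical
  unfold seg
  rw [range_add_one, filter_insert]
  split_ifs with h1
  · rw [card_insert_of_notMem]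
    simp
  · rfl

/-- thinning by a function with increments at most `1` -/
lemma thin_card (A : Set ℕ) (f : ℕ → ℕ) (h0 : f 0 = 0) (hf : Monotone f)
    (h1 : ∀ j, f (j + 1) ≤ f j + 1) (N : ℕ) :
    (seg {x | f (seg A x).card < f (seg A (x + 1)).card} N).card = f (seg A N).card := by
  classical
  induction N with
  | zero =>
    have h2 : ∀ X : Set ℕ, seg X 0 = ∅ := by
      intro X
      unfold seg
      rw [range_zero, filter_empty]
    rw [h2, h2, card_empty, h0]
  | succ N ih =>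
    rw [seg_succ_card, ih]
    have h2 := seg_succ_card A N
    have h3 : f (seg A (N + 1)).card ≤ f (seg A N).card + 1 := by
      rw [h2]
      split_ifs
      · exact h1 _
      · simp
    have h4 : f (seg A N).card ≤ f (seg A (N + 1)).card := by
      apply hf
      rw [h2]
      omega
    simp only [Set.mem_ofPred_eq]
    split_ifs with h5
    · omega
    · omega

lemma thin_sub (A : Set ℕ) (f : ℕ → ℕ) {x : ℕ}
    (hx : x ∈ {x | f (seg A x).card < f (seg A (x + 1)).card}) : x ∈ A := by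
  classical
  by_contra hcon
  rw [Set.mem_ofPred_eq, seg_succ_card, if_neg hcon, add_zero] at hx
  exact lt_irrefl _ hx

lemma icc_le (A : Set ℕ) (N : ℕ) : (A ∩ Set.Icc 1 N).ncard ≤ (seg A N).card + 1 := by
  classical
  have h1 : A ∩ Set.Icc 1 N ⊆ ((insert N (seg A N) : Finset ℕ) : Set ℕ) := by
    intro x hx
    rw [mem_coe, mem_insert, mem_seg]
    rcases eq_or_lt_of_le hx.2.2 with h | h
    · exact Or.inl h
    · exact Or.inr ⟨h, hx.1⟩
  refine (Set.ncard_le_ncard h1 (Finset.finite_toSet _)).trans ?_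
  rw [Set.ncard_coe_finset]
  exact card_insert_le _ _

lemma le_icc (A : Set ℕ) (N : ℕ) : (seg A N).card ≤ (A ∩ Set.Icc 1 N).ncard + 1 := by
  classical
  have h1 : ((seg A N).erase 0 : Finset ℕ) = ((seg A N).erase 0 : Finset ℕ) := rfl
  have h2 : (((seg A N).erase 0 : Finset ℕ) : Set ℕ) ⊆ A ∩ Set.Icc 1 N := by
    intro x hx
    rw [mem_coe, mem_erase, mem_seg] at hx
    exact ⟨hx.2.2, by have := hx.1; omega, hx.2.1.le⟩
  have h3 := Set.ncard_le_ncard h2 ((Set.finite_Icc 1 N).subset Set.inter_subset_right)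
  rw [Set.ncard_coe_finset] at h3
  have h4 := Finset.pred_card_le_card_erase (s := seg A N) (a := 0)
  omega

lemma tendsto_rpow_nat {e : ℝ} (he : 0 < e) :
    Tendsto (fun N : ℕ => (N : ℝ) ^ e) atTop atTop :=
  (tendsto_rpow_atTop he).comp tendsto_natCast_atTop_atTop

theorem main : S_THIN := by
  classical
  intro b b' hb hbb' hb2
  -- the exponent of the thinning
  obtain ⟨θ, hθ1, hθ2, hθ3⟩ : ∃ θ : ℝ, 2 * b < θ ∧ θ < 2 * b' ∧ θ ≤ 1 := by
    refine ⟨min 1 (b + b'), lt_min (by linarith) (by linarith), ?_, min_le_left _ _⟩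
    exact (min_le_right _ _).trans_lt (by linarith)
  have hθ0 : 0 < θ := by linarith
  have hbθ : b / θ < 1 / 2 := by
    rw [div_lt_iff₀ hθ0]
    linarith
  have hbθ0 : 0 < b / θ := div_pos hb hθ0
  obtain ⟨β, hβdef⟩ : ∃ β : ℝ, β = (1 / 2 - b / θ) / 2 := ⟨_, rfl⟩
  have hβ0 : 0 < β := by rw [hβdef]; linarith
  have hβ1 : β < 1 / 2 := by rw [hβdef]; linarith
  have he1 : b < (1 / 2 - β) * θ := by
    have h1 : b / θ < 1 / 2 - β := by rw [hβdef]; linarith
    rw [div_lt_iff₀ hθ0] at h1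
    exact h1
  obtain ⟨A0, -, ⟨R, hR⟩, hlow⟩ := Pool.Agent.Helper76.FX.pw_lower (γ := 2) (by norm_num) hβ0 hβ1
  have hR' : ∀ n, rep A0 n ≤ R := hR
  obtain ⟨f, hf⟩ : ∃ f : ℕ → ℕ, f = fun j : ℕ => ⌊(j : ℝ) ^ θ⌋₊ := ⟨_, rfl⟩
  have hf0 : f 0 = 0 := by
    rw [hf]
    simp [Real.zero_rpow hθ0.ne']
  have hfm : Monotone f := by
    intro i j hij
    rw [hf]
    exact Nat.floor_le_floor (Real.rpow_le_rpow (Nat.cast_nonneg _) (by exact_mod_cast hij) hθ0.le)
  have hf1 : ∀ j, f (j + 1) ≤ f j + 1 := by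
    intro j
    rw [hf]
    show ⌊((j + 1 : ℕ) : ℝ) ^ θ⌋₊ ≤ ⌊(j : ℝ) ^ θ⌋₊ + 1
    rw [← Nat.floor_add_one (by positivity)]
    apply Nat.floor_le_floor
    push_cast
    have h1 := Real.rpow_add_le_add_rpow (p := θ) (Nat.cast_nonneg j : (0 : ℝ) ≤ j) zero_le_one
      hθ0.le hθ3
    rw [Real.one_rpow] at h1
    exact h1
  obtain ⟨B, hB⟩ : ∃ B : Set ℕ, B = {x | f (seg A0 x).card < f (seg A0 (x + 1)).card} := ⟨_, rfl⟩
  have hBc : ∀ N, (seg B N).card = f (seg A0 N).card := by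
    intro N
    rw [hB]
    exact thin_card A0 f hf0 hfm hf1 N
  have hBs : ∀ x ∈ B, x ∈ A0 := by
    intro x hx
    rw [hB] at hx
    exact thin_sub A0 f hx
  refine ⟨B, ⟨R, fun n => ?_⟩, ?_, ?_⟩
  · refine le_trans ?_ (hR' n)
    unfold rep
    refine Set.ncard_le_ncard ?_ (rep_finite A0 n)
    rintro p ⟨h1, h2, h3⟩
    exact ⟨hBs _ h1, hBs _ h2, h3⟩
  · have he2 : 0 < (1 / 2 - β) * θ := hb.trans he1
    filter_upwards [hlow, (tendsto_rpow_nat (show 0 < 1 / 2 - β by linarith)).eventually_ge_atTop 2,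
      (tendsto_rpow_nat (show 0 < (1 / 2 - β) * θ - b by linarith)).eventually_ge_atTop 4,
      (tendsto_rpow_nat hb).eventually_ge_atTop 2, eventually_ge_atTop 1] with N h1 h2 h3 h4 h5
    have hN : (0 : ℝ) < N := by exact_mod_cast h5
    have h6 : ((A0 ∩ Set.Icc 1 N).ncard : ℝ) ≤ (seg A0 N).card + 1 := by
      exact_mod_cast icc_le A0 N
    have h7 : (N : ℝ) ^ (1 / 2 - β) / 2 ≤ (seg A0 N).card := by linarith
    have h8 : ((seg B N).card : ℝ) ≤ (B ∩ Set.Icc 1 N).ncard + 1 := by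
      exact_mod_cast le_icc B N
    have h9 : ((seg A0 N).card : ℝ) ^ θ ≤ (seg B N).card + 1 := by
      rw [hBc, hf]
      exact (Nat.lt_floor_add_one _).le
    have h10 : (N : ℝ) ^ ((1 / 2 - β) * θ) / 2 ≤ ((seg A0 N).card : ℝ) ^ θ := by
      have h11 : ((N : ℝ) ^ (1 / 2 - β) / 2) ^ θ ≤ ((seg A0 N).card : ℝ) ^ θ :=
        Real.rpow_le_rpow (by positivity) h7 hθ0.le
      refine le_trans ?_ h11
      rw [Real.div_rpow (by positivity) (by norm_num), ← Real.rpow_mul hN.le]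
      have h12 : (2 : ℝ) ^ θ ≤ 2 := by
        calc (2 : ℝ) ^ θ ≤ 2 ^ (1 : ℝ) := Real.rpow_le_rpow_of_exponent_le (by norm_num) hθ3
          _ = 2 := Real.rpow_one _
      have h13 : (0 : ℝ) < 2 ^ θ := by positivity
      exact div_le_div_of_nonneg_left (by positivity) h13 h12
    have h14 : (N : ℝ) ^ ((1 / 2 - β) * θ) = (N : ℝ) ^ ((1 / 2 - β) * θ - b) * (N : ℝ) ^ b := by
      rw [← Real.rpow_add hN]
      congr 1
      ring
    have h15 : 4 * (N : ℝ) ^ b ≤ (N : ℝ) ^ ((1 / 2 - β) * θ) := by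
      rw [h14]
      gcongr
    linarith
  · filter_upwards [(tendsto_rpow_nat (show 0 < 2 * b' / θ - 1 from by
        rw [sub_pos, lt_div_iff₀ hθ0]; linarith)).eventually_ge_atTop (R * 2 : ℝ),
      eventually_ge_atTop 1] with N h1 h2
    have hN : (0 : ℝ) < N := by exact_mod_cast h2
    have h3 : ((seg A0 N).card : ℝ) ^ 2 ≤ R * (2 * N) := by exact_mod_cast card_sq hR' N
    have h4 : ((seg A0 N).card : ℝ) ^ 2 ≤ (N : ℝ) ^ (2 * b' / θ) := by
      calc ((seg A0 N).card : ℝ) ^ 2 ≤ (R * 2) * N := by linarith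
        _ ≤ (N : ℝ) ^ (2 * b' / θ - 1) * N := by gcongr
        _ = (N : ℝ) ^ (2 * b' / θ - 1) * (N : ℝ) ^ (1 : ℝ) := by rw [Real.rpow_one]
        _ = (N : ℝ) ^ (2 * b' / θ) := by
            rw [← Real.rpow_add hN]
            congr 1
            ring
    have h5 : ((seg B N).card : ℝ) ≤ ((seg A0 N).card : ℝ) ^ θ := by
      rw [hBc, hf]
      exact Nat.floor_le (by positivity)
    refine h5.trans ?_
    have h6 : ((seg A0 N).card : ℝ) ^ θ = (((seg A0 N).card : ℝ) ^ 2) ^ (θ / 2) := by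
      rw [← Real.rpow_natCast, ← Real.rpow_mul (by positivity)]
      congr 1
      push_cast
      ring
    rw [h6]
    calc (((seg A0 N).card : ℝ) ^ 2) ^ (θ / 2) ≤ ((N : ℝ) ^ (2 * b' / θ)) ^ (θ / 2) :=
          Real.rpow_le_rpow (by positivity) h4 (by linarith)
      _ = (N : ℝ) ^ b' := by
          rw [← Real.rpow_mul hN.le]
          congr 1
          field_simp

end Pool.Agent.Helper85.SP.THIN
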